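import Pool.Agent.H.MP_53e2a7_pr.hd.Defs

/-!
# Countably many exceptional beta: auxiliary definitions
-/

namespace Frog81

open MeasureTheory ProbabilityTheory Filter
open scoped ENNReal NNReal Topology

open scoped Classical in
/-- Only the particles of the sites in `K`. -/
noncomputable def cut {d : ℕ} (K : Set (Site d)) (ω : Env d) : Env d :=
  fun x => if x ∈ K then ω x else (0, (ω x).2)

open scoped Classical in
/-- `ω` on `K`, `ω'` off `K`. -/
noncomputable def glue {d : ℕ} (K : Set (Site d)) (ω ω' : Env d) : Env d :=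
  fun x => if x ∈ K then ω x else ω' x

/-- The unit vector `σ e_i`, times `m`. -/
def ax {d : ℕ} (i : Fin d) (σ : ℤ) (m : ℕ) : Site d := Pi.single i (σ * m)

/-- The cone around the direction `σ e_i`. -/
def cone {d : ℕ} (i : Fin d) (σ : ℤ) : Set (Site d) := {y | ∑ j, |y j| ≤ 2 * (σ * y i)}

/-- The sites in the open ball of radius `r` of the gauge. -/
def lev {d : ℕ} (μ : (Fin d → ℝ) → ℝ) (r : ℝ) : Set (Site d) := {y | μ (rv y) < r}

/-- Near every site at distance at least `N` there is a regular site. -/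
def DenseZ {d : ℕ} (μ : (Fin d → ℝ) → ℝ) (κ : ℝ) (N : ℕ) (ω : Env d) : Prop :=
  ∀ x : Site d, (N : ℝ) ≤ ‖rv x‖ → ∃ g, Good μ κ N ω g ∧ ‖rv g - rv x‖ ≤ κ * ‖rv x‖

end Frog81
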