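import Pool.Agent.H.MP_53e2a7_pr.hd.Chain
import Pool.Agent.H.MP_53e2a7_pr.he.Defs

/-!
# ChK: chains with particles of K only

PROOF. As `chain_or` in hd/Chain.lean with `cost (cut K ω)`. `travel (cut K ω) a b = travel ω a b` for `a ∈ K`, and `= ⊤` for `a ∉ K` (`travel_eq_top`, there are no particles).
So all sites of a chain of finite cost are in `K` except possibly the last one, `y`. (The total cost `T (cut K ω) g y + 1` is finite.)
-/

namespace Frog81

open MeasureTheory ProbabilityTheory Filter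
open scoped ENNReal NNReal Topology

private theorem ChK_travel {d : ℕ} {ω : Env d} {K : Set (Site d)} {a : Site d} (ha : a ∈ K)
    (b : Site d) : travel (cut K ω) a b = travel ω a b := by
  have h1 : cut K ω a = ω a := if_pos ha
  unfold travel
  rw [h1]

private theorem ChK_mem {d : ℕ} {ω : Env d} {K : Set (Site d)} {a y : Site d}
    (l : List (Site d)) (h : cost (cut K ω) a (l ++ [y]) ≠ ⊤) : a ∈ K := by
  by_contra ha
  have h1 : (cut K ω a).1 = 0 := by
    have h2 : cut K ω a = (0, (ω a).2) := if_neg ha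
    rw [h2]
  refine h ?_
  cases l with
  | nil =>
    have hc : cost (cut K ω) a ([] ++ [y]) = travel (cut K ω) a y := by simp [cost]
    rw [hc]
    exact travel_eq_top _ _ _ h1
  | cons b l =>
    have hc : cost (cut K ω) a ((b :: l) ++ [y]) =
      travel (cut K ω) a b + cost (cut K ω) b (l ++ [y]) := rfl
    rw [hc, travel_eq_top _ _ _ h1, top_add]

private theorem ChK_step {d : ℕ} {β : ℝ} {z : Site d} {ω : Env d} {t : Site d → ℝ≥0∞}
    {θ : Site d → Kind} (h : IsTwoType β z ω t θ) {K : Set (Site d)} {g a b : Site d} {s : ℝ≥0∞}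
    (haK : a ∈ K) (ha : θ a = Kind.one) (ht : t a ≤ t g + s) :
    t b ≤ t g + (s + travel (cut K ω) a b) := by
  rw [ChK_travel haK]
  have h1 := h.le a b
  have h2 : travel ω a b / rate β (θ a) = travel ω a b := by
    rw [ha]
    exact div_one _
  rw [h2] at h1
  refine h1.trans ((add_le_add ht le_rfl).trans (le_of_eq ?_))
  exact add_assoc _ _ _

private theorem ChK_aux {d : ℕ} {β : ℝ} {z : Site d} {ω : Env d} {t : Site d → ℝ≥0∞}
    {θ : Site d → Kind} (h : IsTwoType β z ω t θ) {K : Set (Site d)} {g y : Site d}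
    (l : List (Site d)) :
    ∀ (a : Site d) (s : ℝ≥0∞), θ a = Kind.one → t a ≤ t g + s →
      cost (cut K ω) a (l ++ [y]) ≠ ⊤ →
      (θ y = Kind.one ∧ t y ≤ t g + (s + cost (cut K ω) a (l ++ [y]))) ∨
        ∃ w, (w ∈ K ∨ w = y) ∧ θ w = Kind.two ∧
          t w ≤ t g + (s + cost (cut K ω) a (l ++ [y])) := by
  induction l with
  | nil =>
    intro a s ha ht hT
    have hc : cost (cut K ω) a ([] ++ [y]) = travel (cut K ω) a y := by simp [cost]
    have h1 := ChK_step h (b := y) (ChK_mem [] hT) ha ht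
    rw [hc]
    cases hk : θ y with
    | one => exact Or.inl ⟨rfl, h1⟩
    | two => exact Or.inr ⟨y, Or.inr rfl, hk, h1⟩
  | cons b l ih =>
    intro a s ha ht hT
    have hc : cost (cut K ω) a ((b :: l) ++ [y]) =
      travel (cut K ω) a b + cost (cut K ω) b (l ++ [y]) := rfl
    have h1 := ChK_step h (b := b) (ChK_mem (b :: l) hT) ha ht
    have hT' : cost (cut K ω) b (l ++ [y]) ≠ ⊤ := by
      intro h2
      rw [hc, h2, add_top] at hT
      exact hT rfl
    rw [hc, ← add_assoc s]
    cases hk : θ b with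
    | one => exact ih b (s + travel (cut K ω) a b) hk h1 hT'
    | two =>
      right
      exact ⟨b, Or.inl (ChK_mem l hT'), hk, h1.trans (add_le_add le_rfl le_self_add)⟩

theorem chain_cut {d : ℕ} {β : ℝ} {z : Site d} {ω : Env d} {t : Site d → ℝ≥0∞}
    {θ : Site d → Kind} (h : IsTwoType β z ω t θ) {K : Set (Site d)} {g y : Site d}
    (hgK : g ∈ K) (hg1 : θ g = Kind.one) (hT : T (cut K ω) g y ≠ ⊤) :
    (θ y = Kind.one ∧ t y ≤ t g + (T (cut K ω) g y + 1)) ∨
      ∃ w, (w ∈ K ∨ w = y) ∧ θ w = Kind.two ∧ t w ≤ t g + (T (cut K ω) g y + 1) := by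
  have _ := hgK
  have h1 : T (cut K ω) g y < T (cut K ω) g y + 1 := ENNReal.lt_add_right hT one_ne_zero
  have h2 : (⨅ l : List (Site d), cost (cut K ω) g (l ++ [y])) < T (cut K ω) g y + 1 := h1
  obtain ⟨l, hl⟩ := iInf_lt_iff.1 h2
  have h3 := ChK_aux h (K := K) (g := g) (y := y) l g 0 hg1 (by rw [add_zero]) hl.ne_top
  rw [zero_add] at h3
  rcases h3 with ⟨h4, h5⟩ | ⟨w, h4, h5, h6⟩
  · exact Or.inl ⟨h4, h5.trans (add_le_add le_rfl hl.le)⟩
  · exact Or.inr ⟨w, h4, h5, h6.trans (add_le_add le_rfl hl.le)⟩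

end Frog81
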