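import Pool.Agent.H.MP_53e2a7_pr.h81.Comp
import Pool.Agent.H.MP_53e2a7_pr.he.Defs

/-!
# CplB: monotonicity in beta, two environments which agree near the origin

PROOF (compare hd/Cpl.lean). `P y`: if `θ y = one`, `t y ≤ t x` then `θ' y = one ∧ t' y ≤ t y`. `Q y`: if `θ' y = two`, `t' y < t x` then `θ y = two ∧ t y ≤ t' y`.
The time of a violation is `t y` for `P y`, `t' y` for `Q y`; take a violation with the least time `m` (finite sets by `h.fin`, `h'.fin`). Parents are
strictly earlier (`time_lt`). Case `P y` fails, `m = t y ≤ t x`: parent `u` of `y` in the first process: `t u < t x`, so `u ∈ K`, `travel ω u y = travel ω' u y`, `P u`, so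
`t' y ≤ t' u + travel ≤ t y` and `θ' y = two`; parent `u₂` of `y` in the second process, `θ' u₂ = two`, `t' u₂ < t' y ≤ m ≤ t x`, `Q u₂`: `θ u₂ = two`, `t u₂ ≤ t' u₂ < t x`,
`u₂ ∈ K`, `t y ≤ t u₂ + travel / β' < t' u₂ + travel / β = t' y ≤ t y`, contradiction (`travel` positive and finite). Case `Q y` fails, `m = t' y < t x`: parent `u₂`
in the second process, `Q u₂`, `u₂ ∈ K`, `t y ≤ t u₂ + travel / β' < t' y = m`, so `θ y = one` and by `P y` (time `t y < m`) `θ' y = one`, contradiction.
-/

namespace Frog81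

open MeasureTheory ProbabilityTheory Filter
open scoped ENNReal NNReal Topology

/-- the faster rate gives the shorter time -/
private theorem CplB_div_lt {a : ℝ≥0∞} {β β' : ℝ} (hβ0 : 0 < β) (hββ : β < β') (ha0 : a ≠ 0)
    (ha : a ≠ ⊤) : a / rate β' Kind.two < a / rate β Kind.two := by
  unfold rate
  apply ENNReal.div_lt_div_left ha0 ha
  exact (ENNReal.ofReal_lt_ofReal_iff (hβ0.trans hββ)).2 hββ

/-- type two: the next site is reached strictly earlier with the faster rate -/
private theorem CplB_two {d : ℕ} {β β' : ℝ} {z : Site d} {ω ω' : Env d} {t t' : Site d → ℝ≥0∞}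
    {θ : Site d → Kind} (hβ0 : 0 < β) (hββ : β < β') (h : IsTwoType β' z ω t θ)
    {u y : Site d} (hlt : t' u < t' y) (hty : t' y ≠ ⊤)
    (he : t' y = t' u + travel ω' u y / rate β Kind.two)
    (htr : travel ω u y = travel ω' u y) (h2 : θ u = Kind.two)
    (hle : t u ≤ t' u) : t y < t' y := by
  have hx : t' u ≠ ⊤ := (hlt.trans_le le_top).ne
  have h1 := h.le u y
  rw [h2, htr] at h1
  have ha0 : travel ω' u y ≠ 0 := by
    intro h0
    rw [h0, ENNReal.zero_div, add_zero] at he
    exact hlt.ne he.symm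
  have ha : travel ω' u y ≠ ⊤ := by
    intro h0
    rw [h0, ENNReal.top_div_of_ne_top (by simp [rate]), add_top] at he
    exact hty he
  have h3 := CplB_div_lt hβ0 hββ ha0 ha
  calc t y ≤ t u + travel ω' u y / rate β' Kind.two := h1
    _ ≤ t' u + travel ω' u y / rate β' Kind.two := add_le_add hle le_rfl
    _ < t' u + travel ω' u y / rate β Kind.two := ENNReal.add_lt_add_left hx h3
    _ = t' y := he.symm

private theorem CplB_fin {d : ℕ} {β : ℝ} {z : Site d} {ω : Env d} {t : Site d → ℝ≥0∞}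
    {θ : Site d → Kind} (h : IsTwoType β z ω t θ) {m : ℝ≥0∞} (hm : m ≠ ⊤) :
    {u | t u < m}.Finite := by
  refine (h.fin m.toNNReal).subset ?_
  intro u hu
  have hu' : t u < m := hu
  change t u ≤ (m.toNNReal : ℝ≥0∞)
  rw [ENNReal.coe_toNNReal hm]
  exact hu'.le

/-- the measure of the induction does not grow -/
private theorem CplB_le {d : ℕ} {t : Site d → ℝ≥0∞} {m m' : ℝ≥0∞} (hf : {u | t u < m}.Finite)
    (hm : m' < m) : {u | t u < m'}.ncard ≤ {u | t u < m}.ncard := by
  apply Set.ncard_le_ncard _ hf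
  intro u hu
  exact lt_trans (show t u < m' from hu) hm

/-- the measure of the induction drops at a time that occurs -/
private theorem CplB_lt {d : ℕ} {t : Site d → ℝ≥0∞} {m m' : ℝ≥0∞} (hf : {u | t u < m}.Finite)
    (hm : m' < m) {u : Site d} (hu : t u = m') :
    {u | t u < m'}.ncard < {u | t u < m}.ncard := by
  apply Set.ncard_lt_ncard _ hf
  constructor
  · intro v hv
    exact lt_trans (show t v < m' from hv) hm
  · intro hsub
    have h2 : u ∈ {u | t u < m} := by
      change t u < m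
      rw [hu]; exact hm
    exact absurd hu (ne_of_lt (show t u < m' from hsub h2))

private theorem CplB_travel {d : ℕ} {ω ω' : Env d} {u : Site d} (h : ω u = ω' u) (y : Site d) :
    travel ω u y = travel ω' u y := by
  unfold travel
  rw [h]

/-- both halves of the comparison at the time `m` -/
private theorem CplB_main {d : ℕ} {β β' : ℝ} {z : Site d} {ω ω' : Env d} {t t' : Site d → ℝ≥0∞}
    {θ θ' : Site d → Kind} (K : Set (Site d)) (hK : ∀ y ∈ K, ω y = ω' y) (hreg : Regular ω)
    (hreg' : Regular ω') (hβ0 : 0 < β) (hββ : β < β')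
    (h : IsTwoType β' z ω t θ) (h' : IsTwoType β z ω' t' θ') {B : ℝ≥0∞}
    (hb : ∀ w, t w < B → w ∈ K) :
    ∀ n : ℕ, ∀ m : ℝ≥0∞, m ≠ ⊤ → m ≤ B → {u | t u < m}.ncard + {u | t' u < m}.ncard = n →
      (∀ y, t y = m → θ y = Kind.one → θ' y = Kind.one ∧ t' y ≤ t y) ∧
      (m < B → ∀ y, t' y = m → θ' y = Kind.two → θ y = Kind.two ∧ t y ≤ t' y) := by
  have hβ0' : 0 < β' := hβ0.trans hββ
  intro n
  induction n using Nat.strong_induction_on with
  | _ n ih =>
    intro m hm hmB hn
    have hP : ∀ y, t y < m → θ y = Kind.one → θ' y = Kind.one ∧ t' y ≤ t y := by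
      intro y hy
      refine (ih _ ?_ (t y) (hy.trans_le le_top).ne (hy.le.trans hmB) rfl).1 y rfl
      rw [← hn]
      exact add_lt_add_of_lt_of_le (CplB_lt (CplB_fin h hm) hy rfl) (CplB_le (CplB_fin h' hm) hy)
    have hQ : ∀ y, t' y < m → θ' y = Kind.two → θ y = Kind.two ∧ t y ≤ t' y := by
      intro y hy
      refine (ih _ ?_ (t' y) (hy.trans_le le_top).ne (hy.le.trans hmB) rfl).2
        (lt_of_lt_of_le hy hmB) y rfl
      rw [← hn]
      exact add_lt_add_of_le_of_lt (CplB_le (CplB_fin h hm) hy) (CplB_lt (CplB_fin h' hm) hy rfl)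
    constructor
    · intro y hym hy
      have hty : t y ≠ ⊤ := by rw [hym]; exact hm
      by_cases hy0 : y = 0
      · subst hy0
        exact ⟨h'.kind_zero, by rw [h'.time_zero]; exact bot_le⟩
      have hyz : y ≠ z := by
        rintro rfl
        rw [h.kind_start] at hy
        exact absurd hy (by decide)
      obtain ⟨u, huy, hθ, he⟩ := h.parent y hy0 hyz hty
      have hlt := time_lt hreg hβ0' h u y huy hty he
      have hltm : t u < m := hym ▸ hlt
      have huK : u ∈ K := hb u (lt_of_lt_of_le hltm hmB)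
      have htr := CplB_travel (hK u huK) y
      obtain ⟨h1, h2⟩ := hP u hltm (hθ.trans hy)
      have h3 : t' y ≤ t y := by
        calc t' y ≤ t' u + travel ω' u y / rate β (θ' u) := h'.le u y
          _ ≤ t u + travel ω u y / rate β' (θ u) := by
            rw [h1, hθ, hy, htr]
            exact add_le_add h2 le_rfl
          _ = t y := he.symm
      refine ⟨?_, h3⟩
      rcases hk : θ' y with _ | _
      · rfl
      · exfalso
        have hty2 : t' y ≠ ⊤ := (lt_of_le_of_lt h3 (lt_top_iff_ne_top.2 hty)).ne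
        obtain ⟨u₂, hu₂, hθ₂, he₂⟩ := h'.parent y hy0 hyz hty2
        have hlt2 := time_lt hreg' hβ0 h' u₂ y hu₂ hty2 he₂
        have hx2 : θ' u₂ = Kind.two := hθ₂.trans hk
        have hlt2m : t' u₂ < m := lt_of_lt_of_le hlt2 (h3.trans hym.le)
        obtain ⟨h4, h5⟩ := hQ u₂ hlt2m hx2
        have hu₂K : u₂ ∈ K := hb u₂ (lt_of_le_of_lt h5 (lt_of_lt_of_le hlt2m hmB))
        rw [hx2] at he₂
        have h6 := CplB_two hβ0 hββ h hlt2 hty2 he₂ (CplB_travel (hK u₂ hu₂K) y) h4 h5
        exact absurd (lt_of_lt_of_le h6 h3) (lt_irrefl _)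
    · intro hmlt y hym hy
      have hty : t' y ≠ ⊤ := by rw [hym]; exact hm
      have hy0 : y ≠ 0 := by
        rintro rfl
        rw [h'.kind_zero] at hy
        exact absurd hy (by decide)
      by_cases hyz : y = z
      · subst hyz
        exact ⟨h.kind_start, by rw [h.time_start]; exact bot_le⟩
      obtain ⟨u, huy, hθ, he⟩ := h'.parent y hy0 hyz hty
      have hlt := time_lt hreg' hβ0 h' u y huy hty he
      have hx2 : θ' u = Kind.two := hθ.trans hy
      have hltm : t' u < m := hym ▸ hlt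
      obtain ⟨h4, h5⟩ := hQ u hltm hx2
      have huK : u ∈ K := hb u (lt_of_le_of_lt h5 (lt_of_lt_of_le hltm hmB))
      rw [hx2] at he
      have h6 := CplB_two hβ0 hββ h hlt hty he (CplB_travel (hK u huK) y) h4 h5
      refine ⟨?_, h6.le⟩
      rcases hk : θ y with _ | _
      · exfalso
        have h7 := (hP y (hym ▸ h6) hk).1
        rw [hy] at h7
        exact absurd h7 (by decide)
      · rfl

theorem coupling_on {d : ℕ} {β β' : ℝ} {z : Site d} {ω ω' : Env d} {t t' : Site d → ℝ≥0∞}
    {θ θ' : Site d → Kind} (K : Set (Site d)) (hK : ∀ y ∈ K, ω y = ω' y) (hreg : Regular ω)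
    (hreg' : Regular ω') (hβ0 : 0 < β) (hββ : β < β') (hβ1 : β' ≤ 1)
    (h : IsTwoType β' z ω t θ) (h' : IsTwoType β z ω' t' θ') {x : Site d} (hx : θ x = Kind.one)
    (htx : t x ≠ ⊤) (hb : ∀ w, t w < t x → w ∈ K) : θ' x = Kind.one ∧ t' x ≤ t x := by
  exact (CplB_main K hK hreg hreg' hβ0 hββ h h' hb _ (t x) htx le_rfl rfl).1 x rfl hx

end Frog81
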