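import Pool.Agent.H.MP_53e2a7_pr.h81.Basic
import Pool.Agent.H.MP_53e2a7_pr.h81.Meas
import Pool.Agent.H.MP_53e2a7_pr.he.Defs

/-!
# CutT: passage times with particles of K only

PROOF of T_cut_congr: `travel (cut K ω) x y = travel (cut K ω') x y` (both `⊤` if `x ∉ K`, `travel_eq_top`), hence the costs agree.
T_cut_shift: `cut K (shift v ω) = shift v (cut {y | y - v ∈ K} ω)` and `T_shift`. measurable_T_cut: `measurable_T` composed with the measurable map `cut K`.
T_cut_mono: more particles, smaller times.
-/

namespace Frog81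

open MeasureTheory ProbabilityTheory Filter
open scoped ENNReal NNReal Topology

private theorem CutT_cost_le {d : ℕ} {ω ω' : Env d} (h : ∀ x y, travel ω x y ≤ travel ω' x y)
    (x : Site d) (l : List (Site d)) : cost ω x l ≤ cost ω' x l := by
  induction l generalizing x with
  | nil => exact le_rfl
  | cons a l ih => exact add_le_add (h x a) (ih a)

private theorem CutT_T_le {d : ℕ} {ω ω' : Env d} (h : ∀ x y, travel ω x y ≤ travel ω' x y)
    (x y : Site d) : T ω x y ≤ T ω' x y :=
  iInf_mono fun l => CutT_cost_le h x (l ++ [y])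

private theorem CutT_mem {d : ℕ} {K : Set (Site d)} {x : Site d} (hx : x ∈ K) (ω : Env d) :
    cut K ω x = ω x := if_pos hx

private theorem CutT_notMem {d : ℕ} {K : Set (Site d)} {x : Site d} (hx : x ∉ K) (ω : Env d) :
    cut K ω x = (0, (ω x).2) := if_neg hx

private theorem CutT_top {d : ℕ} {K : Set (Site d)} {x : Site d} (hx : x ∉ K) (ω : Env d)
    (y : Site d) : travel (cut K ω) x y = ⊤ := by
  refine travel_eq_top _ _ _ ?_
  rw [CutT_notMem hx]

private theorem CutT_travel {d : ℕ} {ω ω' : Env d} {x : Site d} (h : ω x = ω' x) (y : Site d) :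
    travel ω x y = travel ω' x y := by
  unfold travel
  rw [h]

theorem T_cut_congr {d : ℕ} {K : Set (Site d)} {ω ω' : Env d} (h : ∀ x ∈ K, ω x = ω' x)
    (x y : Site d) : T (cut K ω) x y = T (cut K ω') x y := by
  have h1 : ∀ x y, travel (cut K ω) x y = travel (cut K ω') x y := by
    intro x y
    by_cases hx : x ∈ K
    · refine CutT_travel ?_ y
      rw [CutT_mem hx, CutT_mem hx, h x hx]
    · rw [CutT_top hx, CutT_top hx]
  exact le_antisymm (CutT_T_le (fun x y => (h1 x y).le) x y)
    (CutT_T_le (fun x y => (h1 x y).ge) x y)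

theorem T_cut_shift {d : ℕ} (K : Set (Site d)) (v : Site d) (ω : Env d) (x y : Site d) :
    T (cut K (shift v ω)) x y = T (cut {y | y - v ∈ K} ω) (x + v) (y + v) := by
  rw [← T_shift]
  congr 1
  funext z
  by_cases hz : z ∈ K
  · rw [CutT_mem hz]
    have h1 : z + v ∈ {y : Site d | y - v ∈ K} := by
      show z + v - v ∈ K
      rw [add_sub_cancel_right]
      exact hz
    show ω (z + v) = cut {y | y - v ∈ K} ω (z + v)
    rw [CutT_mem h1]
  · rw [CutT_notMem hz]
    have h1 : z + v ∉ {y : Site d | y - v ∈ K} := by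
      show ¬ (z + v - v ∈ K)
      rw [add_sub_cancel_right]
      exact hz
    show (0, (ω (z + v)).2) = cut {y | y - v ∈ K} ω (z + v)
    rw [CutT_notMem h1]

theorem measurable_T_cut {d : ℕ} (K : Set (Site d)) (x y : Site d) :
    Measurable fun ω : Env d => T (cut K ω) x y := by
  have h1 : Measurable fun ω : Env d => cut K ω := by
    refine measurable_pi_lambda _ fun z => ?_
    by_cases hz : z ∈ K
    · simp only [CutT_mem hz]
      exact measurable_pi_apply z
    · simp only [CutT_notMem hz]
      exact measurable_const.prodMk (measurable_snd.comp (measurable_pi_apply z))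
  exact (measurable_T x y).comp h1

theorem T_cut_mono {d : ℕ} {K K' : Set (Site d)} (h : K ⊆ K') (ω : Env d) (x y : Site d) :
    T (cut K' ω) x y ≤ T (cut K ω) x y := by
  refine CutT_T_le (fun x y => ?_) x y
  by_cases hx : x ∈ K
  · refine (CutT_travel ?_ y).le
    rw [CutT_mem hx, CutT_mem (h hx)]
  · rw [CutT_top hx]
    exact le_top

end Frog81
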