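import Pool.Agent.H.MP_53e2a7_pr.hd.MG
import Pool.Agent.H.MP_53e2a7_pr.he.Defs

/-!
# DenZ: lattice version of Dense

PROOF. good_kappa: monotone in κ (`μ ≥ 0`). measurableSet_denseZ, measurableSet_slow: countable intersections and unions (`measurableSet_good`, `measurable_T`).
dense_of_denseZ: for `x` with `‖x‖ ≥ N'` let `x'` be the site with `‖rv x' - x‖ ≤ 1/2` (round the coordinates); `‖rv g - x‖ ≤ κ (‖x‖ + 1/2) + 1/2 ≤ 2 κ ‖x‖` for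
`N' ≥ N + 1 + 2 / κ`. denseZ_of_dense: trivial. good_mono from hd/MG.
-/

namespace Frog81

open MeasureTheory ProbabilityTheory Filter
open scoped ENNReal NNReal Topology

private theorem DenZ_nonneg {d : ℕ} {μ : (Fin d → ℝ) → ℝ} {c C : ℝ} (hμ : IsGauge μ c C)
    (x : Fin d → ℝ) : 0 ≤ μ x :=
  (mul_nonneg hμ.c_pos.le (norm_nonneg x)).trans (hμ.low x)

theorem good_kappa {d : ℕ} {μ : (Fin d → ℝ) → ℝ} {c C κ κ' : ℝ} (hμ : IsGauge μ c C) (h : κ ≤ κ')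
    {N : ℕ} {ω : Env d} {g : Site d} (hg : Good μ κ N ω g) : Good μ κ' N ω g := by
  refine ⟨hg.1, fun y => ⟨?_, ?_⟩⟩
  · refine (hg.2 y).1.trans (ENNReal.ofReal_le_ofReal ?_)
    have h1 := mul_le_mul_of_nonneg_right h (DenZ_nonneg hμ (rv y - rv g))
    linarith
  · refine (ENNReal.ofReal_le_ofReal ?_).trans (hg.2 y).2
    have h1 := mul_le_mul_of_nonneg_right h (DenZ_nonneg hμ (rv y - rv g))
    linarith

theorem measurableSet_denseZ {d : ℕ} (μ : (Fin d → ℝ) → ℝ) (κ : ℝ) (N : ℕ) :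
    MeasurableSet {ω : Env d | DenseZ μ κ N ω} := by
  have h : {ω : Env d | DenseZ μ κ N ω} = ⋂ x : Site d, ⋂ (_ : (N : ℝ) ≤ ‖rv x‖),
      ⋃ g : Site d, ({ω : Env d | Good μ κ N ω g} ∩
        {_ω : Env d | ‖rv g - rv x‖ ≤ κ * ‖rv x‖}) := by
    ext ω
    rw [Set.mem_iInter]
    refine forall_congr' fun x => ?_
    rw [Set.mem_iInter]
    refine forall_congr' fun _ => ?_
    rw [Set.mem_iUnion]
    exact Iff.rfl
  rw [h]
  exact MeasurableSet.iInter fun x => MeasurableSet.iInter fun _ => MeasurableSet.iUnion fun g =>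
    (measurableSet_good μ κ N g).inter (MeasurableSet.const _)

theorem measurableSet_slow {d : ℕ} (μ : (Fin d → ℝ) → ℝ) (κ : ℝ) (N : ℕ) (z : Site d) :
    MeasurableSet {ω : Env d | Slow μ κ N ω z} := by
  have h : {ω : Env d | Slow μ κ N ω z} = {_ω : Env d | ‖rv z‖ ≤ N} ∩
      ⋂ y : Site d, ⋂ (_ : y ≠ z),
        {ω : Env d | ENNReal.ofReal ((1 - κ) * μ (rv y) - N) ≤ T ω z y} := by
    ext ω
    rw [Set.mem_inter_iff, Set.mem_iInter]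
    refine and_congr Iff.rfl (forall_congr' fun y => ?_)
    rw [Set.mem_iInter]
    exact Iff.rfl
  rw [h]
  exact (MeasurableSet.const _).inter (MeasurableSet.iInter fun y => MeasurableSet.iInter fun _ =>
    measurableSet_le measurable_const (measurable_T z y))

theorem denseZ_of_dense {d : ℕ} {μ : (Fin d → ℝ) → ℝ} {κ : ℝ} {N : ℕ} {ω : Env d}
    (h : Dense μ κ N ω) : DenseZ μ κ N ω :=
  fun x hx => h (rv x) hx

theorem dense_of_denseZ {d : ℕ} {μ : (Fin d → ℝ) → ℝ} {c C κ : ℝ} (hμ : IsGauge μ c C)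
    (hκ0 : 0 < κ) (N : ℕ) : ∃ N' : ℕ, N ≤ N' ∧ ∀ ω : Env d, DenseZ μ κ N ω →
      Dense μ (2 * κ) N' ω := by
  refine ⟨N + 1 + ⌈2 / κ⌉₊, by omega, fun ω h x hx => ?_⟩
  have h1 : (N : ℝ) + 1 + 2 / κ ≤ ‖x‖ := by
    refine le_trans ?_ hx
    push_cast
    have := Nat.le_ceil (2 / κ)
    linarith
  have h2 : (0 : ℝ) < 2 / κ := by positivity
  have hN : (0 : ℝ) ≤ N := Nat.cast_nonneg N
  obtain ⟨x', hx'⟩ : ∃ x' : Site d, ‖rv x' - x‖ ≤ 1 / 2 := by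
    refine ⟨fun i => round (x i), (pi_norm_le_iff_of_nonneg (by norm_num)).2 fun i => ?_⟩
    show ‖((round (x i) : ℤ) : ℝ) - x i‖ ≤ 1 / 2
    rw [norm_sub_rev, Real.norm_eq_abs]
    exact abs_sub_round (x i)
  have h3 : ‖x‖ ≤ ‖rv x'‖ + 1 / 2 := by
    calc ‖x‖ = ‖rv x' - (rv x' - x)‖ := by rw [sub_sub_cancel]
      _ ≤ ‖rv x'‖ + ‖rv x' - x‖ := norm_sub_le _ _
      _ ≤ ‖rv x'‖ + 1 / 2 := by linarith
  have h4 : ‖rv x'‖ ≤ ‖x‖ + 1 / 2 := by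
    calc ‖rv x'‖ = ‖x + (rv x' - x)‖ := by rw [add_sub_cancel]
      _ ≤ ‖x‖ + ‖rv x' - x‖ := norm_add_le _ _
      _ ≤ ‖x‖ + 1 / 2 := by linarith
  obtain ⟨g, hg, hgx⟩ := h x' (by linarith)
  refine ⟨g, good_mono (by omega) (good_kappa hμ (by linarith) hg), ?_⟩
  have h5 : κ * ‖rv x'‖ ≤ κ * (‖x‖ + 1 / 2) := mul_le_mul_of_nonneg_left h4 hκ0.le
  have h6 : κ * (1 + 2 / κ) ≤ κ * ‖x‖ := mul_le_mul_of_nonneg_left (by linarith) hκ0.le
  have h7 : κ * (1 + 2 / κ) = κ + 2 := by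
    field_simp
  calc ‖rv g - x‖ = ‖(rv g - rv x') + (rv x' - x)‖ := by rw [sub_add_sub_cancel]
    _ ≤ ‖rv g - rv x'‖ + ‖rv x' - x‖ := norm_add_le _ _
    _ ≤ κ * (‖x‖ + 1 / 2) + 1 / 2 := by linarith
    _ ≤ 2 * κ * ‖x‖ := by linarith

end Frog81
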