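import Pool.Agent.H.MP_53e2a7_pr.h81.Comp
import Pool.Agent.H.MP_53e2a7_pr.he.Defs

/-!
# Occ: the starting sites are occupied

PROOF. As `occ_zero` in hd/Slo.lean: if `(ω 0).1 = 0` then every type one site with `t y ≠ ⊤` is `0` (`parent_induction`, `travel_eq_top`), so the set in Activates is empty or finite,
contradiction. The same for `z` and type two.
-/

namespace Frog81

open MeasureTheory ProbabilityTheory Filter
open scoped ENNReal NNReal Topology

theorem occ_one {d : ℕ} {β : ℝ} {z : Site d} {ω : Env d} {t : Site d → ℝ≥0∞} {θ : Site d → Kind}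
    (hreg : Regular ω) (hβ0 : 0 < β) (h : IsTwoType β z ω t θ)
    (hp : Activates ω t θ Kind.one) : 1 ≤ (ω 0).1 := by
  by_contra hcon
  have h0 : (ω 0).1 = 0 := by omega
  have key : ∀ y, t y ≠ ⊤ → θ y = Kind.one → y = 0 := by
    intro y hy
    refine parent_induction hreg h (fun y => θ y = Kind.one → y = 0) ?_ y hy
    intro y hty ih hθy
    by_contra hy0
    have hyz : y ≠ z := by
      rintro rfl
      rw [h.kind_start] at hθy
      exact absurd hθy (by decide)
    obtain ⟨x, hxy, hθ, he⟩ := h.parent y hy0 hyz hty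
    have hx := ih x (time_lt hreg hβ0 h x y hxy hty he) (hθ.trans hθy)
    rw [hx, h.kind_zero, h.time_zero, travel_eq_top ω 0 y h0] at he
    apply hty
    rw [he]
    simp [rate]
  obtain ⟨y, h1, h2, h3⟩ := hp.nonempty
  rw [key y h2 h1] at h3
  exact hcon h3

theorem occ_two {d : ℕ} {β : ℝ} {z : Site d} {ω : Env d} {t : Site d → ℝ≥0∞} {θ : Site d → Kind}
    (hreg : Regular ω) (hβ0 : 0 < β) (h : IsTwoType β z ω t θ)
    (hp : Activates ω t θ Kind.two) : 1 ≤ (ω z).1 := by
  by_contra hcon
  have h0 : (ω z).1 = 0 := by omega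
  have key : ∀ y, t y ≠ ⊤ → θ y = Kind.two → y = z := by
    intro y hy
    refine parent_induction hreg h (fun y => θ y = Kind.two → y = z) ?_ y hy
    intro y hty ih hθy
    by_contra hyz
    have hy0 : y ≠ 0 := by
      rintro rfl
      rw [h.kind_zero] at hθy
      exact absurd hθy (by decide)
    obtain ⟨x, hxy, hθ, he⟩ := h.parent y hy0 hyz hty
    have hx := ih x (time_lt hreg hβ0 h x y hxy hty he) (hθ.trans hθy)
    rw [hx, h.kind_start, h.time_start, travel_eq_top ω z y h0] at he
    apply hty
    rw [he]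
    simp [rate, ENNReal.top_div]
  obtain ⟨y, h1, h2, h3⟩ := hp.nonempty
  rw [key y h2 h1] at h3
  exact hcon h3

end Frog81
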