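import Pool.Agent.H.MP_53e2a7_pr.hd.Two
import Pool.Agent.H.MP_53e2a7_pr.he.Defs

/-!
# Rec: records of type one

PROOF. Given `r₀`, take `y` from `hy` with `μ (rv y)` large, `r = ⌊μ (rv y)⌋₊ ≥ r₀`; `t y ≤ ρ₂ (r+1) + B ≤ ρ₁ r`. Among the type one sites `w` with `r ≤ μ (rv w)`, `t w ≤ t y` (finitely
many, `h.fin`, `y` is one of them) let `x` be one with the least `t`. If `t w < t x`: for `w` of type one `μ (rv w) < r` by the choice of `x`; for `w` of type two, `w ≠ z`: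
`two_slow` and Slow: `(1-κ) μ w - N₀ ≤ β t w ≤ β ρ₁ r`, so `μ w < r` for `r` large as `β ρ₁ < 1 - κ`; `w = z`: `μ (rv z) ≤ C N₀ < r`.
-/

namespace Frog81

open MeasureTheory ProbabilityTheory Filter
open scoped ENNReal NNReal Topology

theorem records {d : ℕ} {μ : (Fin d → ℝ) → ℝ} {c C β κ ρ₁ ρ₂ B : ℝ} (hμ : IsGauge μ c C)
    {z : Site d} {ω : Env d} {t : Site d → ℝ≥0∞} {θ : Site d → Kind} (hreg : Regular ω)
    (hβ0 : 0 < β) (hβ1 : β ≤ 1) (hρ2 : 0 < ρ₂) (hρ : ρ₂ < ρ₁) (hκ0 : 0 < κ)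
    (hκ : β * ρ₁ < 1 - κ) {N₀ : ℕ} (h : IsTwoType β z ω t θ) (hs : Slow μ κ N₀ ω z)
    (hy : ∀ R : ℝ, ∃ y : Site d, θ y = Kind.one ∧ R ≤ μ (rv y) ∧
      t y ≤ ENNReal.ofReal (ρ₂ * μ (rv y) + B)) :
    ∃ᶠ r : ℕ in atTop, ∃ x : Site d, θ x = Kind.one ∧ (r : ℝ) ≤ μ (rv x) ∧
      t x ≤ ENNReal.ofReal (ρ₁ * r) ∧ ∀ w, t w < t x → w ∈ lev μ r := by
  have hc := hμ.c_pos
  have hC := hμ.C_pos
  have hN0 : (0 : ℝ) ≤ N₀ := Nat.cast_nonneg N₀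
  have hpos : ∀ x, 0 ≤ μ x := fun x =>
    (mul_nonneg hc.le (norm_nonneg x)).trans (hμ.low x)
  have hρ0 : 0 < ρ₁ := hρ2.trans hρ
  have ha : 0 < ρ₁ - ρ₂ := by linarith
  have hb : 0 < 1 - κ - β * ρ₁ := by linarith
  have hB : 0 ≤ (ρ₂ + |B|) / (ρ₁ - ρ₂) :=
    div_nonneg (add_nonneg hρ2.le (abs_nonneg B)) ha.le
  have hNb : 0 ≤ (N₀ : ℝ) / (1 - κ - β * ρ₁) := div_nonneg hN0 hb.le
  have hCN : 0 ≤ C * N₀ := mul_nonneg hC.le hN0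
  rw [frequently_atTop]
  intro r₀
  obtain ⟨y, hy1, hy2, hy3⟩ := hy (r₀ + (ρ₂ + |B|) / (ρ₁ - ρ₂) + N₀ / (1 - κ - β * ρ₁) + C * N₀ + 2)
  obtain ⟨r, hr⟩ : ∃ r : ℕ, r = ⌊μ (rv y)⌋₊ := ⟨_, rfl⟩
  have hr1 : (r : ℝ) ≤ μ (rv y) := by
    rw [hr]
    exact Nat.floor_le (hpos _)
  have hr2 : μ (rv y) < r + 1 := by
    rw [hr]
    exact Nat.lt_floor_add_one _
  have hr0 : (0 : ℝ) ≤ r₀ := Nat.cast_nonneg r₀
  have hr3 : (r₀ : ℝ) < r := by linarith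
  have hr4 : (ρ₂ + |B|) / (ρ₁ - ρ₂) < r := by linarith
  have hr5 : (N₀ : ℝ) / (1 - κ - β * ρ₁) < r := by linarith
  have hr6 : C * N₀ < r := by linarith
  rw [div_lt_iff₀ ha] at hr4
  rw [div_lt_iff₀ hb] at hr5
  have hty : t y ≤ ENNReal.ofReal (ρ₁ * r) := by
    refine hy3.trans (ENNReal.ofReal_le_ofReal ?_)
    have h1 : ρ₂ * μ (rv y) ≤ ρ₂ * (r + 1) := mul_le_mul_of_nonneg_left hr2.le hρ2.le
    have h2 := le_abs_self B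
    nlinarith
  have hfin : {w : Site d | θ w = Kind.one ∧ (r : ℝ) ≤ μ (rv w) ∧ t w ≤ t y}.Finite := by
    refine (h.fin (ρ₁ * r).toNNReal).subset ?_
    rintro w ⟨-, -, h3⟩
    exact h3.trans hty
  obtain ⟨x, ⟨hx1, hx2, hx3⟩, hx4⟩ := Set.exists_min_image _ t hfin ⟨y, hy1, hr1, le_rfl⟩
  have hx5 : t x ≤ ENNReal.ofReal (ρ₁ * r) := hx3.trans hty
  refine ⟨r, by exact_mod_cast hr3.le, x, hx1, hx2, hx5, fun w hw => ?_⟩
  show μ (rv w) < r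
  by_contra hcon
  rw [not_lt] at hcon
  rcases hθ : θ w with _ | _
  · exact absurd (hx4 w ⟨hθ, hcon, hw.le.trans hx3⟩) (not_le.2 hw)
  · by_cases hwz : w = z
    · have h1 : μ (rv w) ≤ C * N₀ := by
        rw [hwz]
        exact (hμ.up _).trans (mul_le_mul_of_nonneg_left hs.1 hC.le)
      linarith
    · have h1 : T ω z w / ENNReal.ofReal β ≤ ENNReal.ofReal (ρ₁ * r) :=
        (two_slow hreg hβ0 hβ1 h w hθ hwz).trans (hw.le.trans hx5)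
      have hβ : ENNReal.ofReal β ≠ 0 := by
        rw [Ne, ENNReal.ofReal_eq_zero, not_le]
        exact hβ0
      have hrr : (0 : ℝ) ≤ ρ₁ * r := mul_nonneg hρ0.le (Nat.cast_nonneg r)
      rw [ENNReal.div_le_iff hβ ENNReal.ofReal_ne_top, ← ENNReal.ofReal_mul hrr] at h1
      have h2 := (hs.2 w hwz).trans h1
      have h3 := (ENNReal.ofReal_le_ofReal_iff (mul_nonneg hrr hβ0.le)).1 h2
      have h4 : 0 < 1 - κ := by
        have := mul_pos hβ0 hρ0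
        linarith
      have h5 : (1 - κ) * r ≤ (1 - κ) * μ (rv w) := mul_le_mul_of_nonneg_left hcon h4.le
      nlinarith

end Frog81
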