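import Pool.Agent.H.MP_53e2a7_pr.h81.Reg
import Pool.Agent.H.MP_53e2a7_pr.h81.Exist
import Pool.Agent.H.MP_53e2a7_pr.h81.Shape
import Pool.Agent.H.MP_53e2a7_pr.hd.Cpl
import Pool.Agent.H.MP_53e2a7_pr.hd.Two
import Pool.Agent.H.MP_53e2a7_pr.he.Occ
import Pool.Agent.H.MP_53e2a7_pr.he.Rec

/-!
# Early: records in the intermediate process

PROOF. `occ_one` (for `t'`, `θ'`), `occ_two` (for `t`, `θ`): `0` and `z` are occupied. `exists_twoType` (h81/Exist) gives the process `(t₁, θ₁)` for `β₁` (`hfin` gives the finiteness hypotheses for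
`0` and `z`; `z ≠ 0` as `θ 0 = one`, `θ z = two`). For infinitely many sites `y`: `θ' y = one`, `t' y ≠ ⊤`; `coupling` for `β₁ < β'`: `θ₁ y = one`, `t₁ y ≤ t' y ≤ T ω 0 y / β'` (`one_fast`) `≤ ((1+κ) μ y + N) / β' ≤ ρ₂ μ y + B`,
`B = N / β'`; infinitely many sites include some with `μ (rv y) ≥ R` (finitely many sites in a ball, `μ ≥ c ‖·‖`). Then `records` with `β₁`.
-/

namespace Frog81

open MeasureTheory ProbabilityTheory Filter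
open scoped ENNReal NNReal Topology

private theorem Early_finite {d : ℕ} (M : ℝ) : {y : Site d | ‖rv y‖ < M}.Finite := by
  have h1 : {y : Site d | ‖rv y‖ < M} ⊆ Set.Icc (fun _ => -⌈M⌉) (fun _ => ⌈M⌉) := by
    intro y hy
    have hy' : ‖rv y‖ < M := hy
    have h2 : ∀ i, |(y i : ℝ)| < M := fun i => by
      have h3 := norm_le_pi_norm (rv y) i
      rw [Real.norm_eq_abs] at h3
      exact lt_of_le_of_lt h3 hy'
    have h4 : ∀ i, |y i| ≤ ⌈M⌉ := fun i => by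
      have h5 : ((|y i| : ℤ) : ℝ) < M := by rw [Int.cast_abs]; exact h2 i
      have h6 : ((|y i| : ℤ) : ℝ) ≤ (⌈M⌉ : ℝ) := h5.le.trans (Int.le_ceil M)
      exact_mod_cast h6
    exact ⟨fun i => (abs_le.1 (h4 i)).1, fun i => (abs_le.1 (h4 i)).2⟩
  exact (Set.finite_Icc _ _).subset h1

theorem early {d : ℕ} [NeZero d] {μ : (Fin d → ℝ) → ℝ} {c C β β₁ β' κ ρ₁ ρ₂ : ℝ}
    (hμ : IsGauge μ c C) (hβ0 : 0 < β) (hββ : β < β₁) (hββ' : β₁ < β') (hβ1 : β' < 1)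
    (hκ0 : 0 < κ) (hκ1 : (1 + κ) / β' ≤ ρ₂) (hρ : ρ₂ < ρ₁) (hκ : β₁ * ρ₁ < 1 - κ) {N : ℕ}
    {z : Site d} {ω : Env d} {t t' : Site d → ℝ≥0∞} {θ θ' : Site d → Kind} (hreg : Regular ω)
    (hfin : ∀ a : Site d, 1 ≤ (ω a).1 →
      (∀ y, T ω a y ≠ ⊤) ∧ ∀ s : ℝ≥0, {y | T ω a y ≤ (s : ℝ≥0∞)}.Finite)
    (hgood : 1 ≤ (ω 0).1 → Good μ κ N ω 0) (hs : Slow μ κ N ω z) (h : IsTwoType β z ω t θ)
    (h' : IsTwoType β' z ω t' θ') (hp : Activates ω t θ Kind.two)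
    (hp' : Activates ω t' θ' Kind.one) :
    ∃ t₁ θ₁, IsTwoType β₁ z ω t₁ θ₁ ∧ ∃ᶠ r : ℕ in atTop, ∃ x : Site d, θ₁ x = Kind.one ∧
      (r : ℝ) ≤ μ (rv x) ∧ t₁ x ≤ ENNReal.ofReal (ρ₁ * r) ∧ ∀ w, t₁ w < t₁ x → w ∈ lev μ r := by
  have hβ₁0 : 0 < β₁ := hβ0.trans hββ
  have hβ'0 : 0 < β' := hβ₁0.trans hββ'
  have h0 : 1 ≤ (ω 0).1 := occ_one hreg hβ'0 h' hp'
  have hz1 : 1 ≤ (ω z).1 := occ_two hreg hβ0 h hp
  have hz : z ≠ 0 := by
    rintro rfl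
    have h1 := h.kind_zero
    rw [h.kind_start] at h1
    exact absurd h1 (by decide)
  have hρ20 : 0 < ρ₂ := lt_of_lt_of_le (div_pos (by linarith) hβ'0) hκ1
  obtain ⟨t₁, θ₁, h₁⟩ := exists_twoType ω hreg β₁ hβ₁0 (hββ'.trans hβ1).le z hz h0 hz1
    (fun s => ((hfin 0 h0).2 s).union ((hfin z hz1).2 s)) (hfin 0 h0).1
  refine ⟨t₁, θ₁, h₁, ?_⟩
  refine records (ρ₂ := ρ₂) (B := N / β') hμ hreg hβ₁0 (hββ'.trans hβ1).le hρ20 hρ hκ0 hκ h₁ hs ?_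
  intro R
  have hF : {y : Site d | μ (rv y) < R}.Finite := by
    refine (Early_finite (R / c)).subset fun y hy => ?_
    have hy' : μ (rv y) < R := hy
    show ‖rv y‖ < R / c
    rw [lt_div_iff₀ hμ.c_pos]
    have := hμ.low (rv y)
    linarith
  obtain ⟨y, hy, hyR⟩ := (hp'.diff hF).nonempty
  have hyR' : R ≤ μ (rv y) := not_lt.1 hyR
  obtain ⟨hy1, hy2, -⟩ := hy
  obtain ⟨h3, h4⟩ := coupling hreg hβ₁0 hββ' hβ1.le h₁ h' y hy1 hy2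
  refine ⟨y, h3, hyR', h4.trans ?_⟩
  have h5 := one_fast hβ'0 hβ1.le h' y
  have h6 := ((hgood h0).2 y).1
  have h7 : rv y - rv (0 : Site d) = rv y := by
    funext i
    show (y i : ℝ) - ((0 : ℤ) : ℝ) = (y i : ℝ)
    rw [Int.cast_zero, sub_zero]
  rw [h7] at h6
  have hμ0 : 0 ≤ μ (rv y) := le_trans (mul_nonneg hμ.c_pos.le (norm_nonneg _)) (hμ.low (rv y))
  calc t' y ≤ T ω 0 y / ENNReal.ofReal β' := h5
    _ ≤ ENNReal.ofReal ((1 + κ) * μ (rv y) + N) / ENNReal.ofReal β' :=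
      ENNReal.div_le_div_right h6 _
    _ = ENNReal.ofReal (((1 + κ) * μ (rv y) + N) / β') := (ENNReal.ofReal_div_of_pos hβ'0).symm
    _ ≤ ENNReal.ofReal (ρ₂ * μ (rv y) + N / β') := by
      apply ENNReal.ofReal_le_ofReal
      have h8 : ((1 + κ) * μ (rv y) + N) / β' = (1 + κ) / β' * μ (rv y) + N / β' := by ring
      rw [h8]
      have h9 := mul_le_mul_of_nonneg_right hκ1 hμ0
      linarith

end Frog81
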