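import Pool.Agent.H.MP_53e2a7_pr.he.PairD

/-!
# FinS: countably many exceptional beta, weak form of coexistence
-/

namespace Frog81

open MeasureTheory ProbabilityTheory Filter
open scoped ENNReal NNReal Topology

/-- Coexistence in the weakest sense: for some `z ≠ 0`, on a measurable event of positive
probability there is a version of the two-type process in which both types activate infinitely many
particles. -/
def CoexistenceSome (d : ℕ) [NeZero d] (ν : Measure ℕ) (β : ℝ) : Prop :=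
  ∃ z : Site d, z ≠ 0 ∧ ∃ E : Set (Env d), MeasurableSet E ∧ 0 < envLaw d ν E ∧
    ∀ ω ∈ E, ∃ t θ, IsTwoType β z ω t θ ∧ Activates ω t θ Kind.one ∧ Activates ω t θ Kind.two

/-- The weak form of coexistence follows from the form of the definition. -/
theorem some_of_possible {d : ℕ} [NeZero d] {ν : Measure ℕ} {β : ℝ}
    (h : CoexistencePossible d ν β) : CoexistenceSome d ν β := by
  obtain ⟨z, hz, E, hEm, hEp, hE⟩ := h
  refine ⟨z, hz, E, hEm, hEp, fun ω hω => ?_⟩
  obtain ⟨⟨t, θ, h1⟩, h2⟩ := hE ω hω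
  exact ⟨t, θ, h1, h2 t θ h1⟩

theorem some_countable {d : ℕ} [NeZero d] (hd : 2 ≤ d) (ν : Measure ℕ) [IsProbabilityMeasure ν]
    (h : HasBoundedShape d ν) : {β : ℝ | 0 < β ∧ β < 1 ∧ CoexistenceSome d ν β}.Countable := by
  obtain ⟨A, hA⟩ : ∃ A : Site d → Set ℝ, ∀ z, A z = {β : ℝ | 0 < β ∧ β < 1 ∧
      ∃ E : Set (Env d), MeasurableSet E ∧ 0 < envLaw d ν E ∧
        ∀ ω ∈ E, ∃ t θ, IsTwoType β z ω t θ ∧ Activates ω t θ Kind.one ∧
          Activates ω t θ Kind.two} :=
    ⟨_, fun _ => rfl⟩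
  have hc : ∀ z, (A z).Countable := by
    intro z
    have hE : ∀ β : A z, 0 < β.1 ∧ β.1 < 1 ∧
      ∃ E : Set (Env d), MeasurableSet E ∧ 0 < envLaw d ν E ∧
        ∀ ω ∈ E, ∃ t θ, IsTwoType β.1 z ω t θ ∧ Activates ω t θ Kind.one ∧
          Activates ω t θ Kind.two := by
      intro β
      exact (Set.ext_iff.1 (hA z) β.1).1 β.2
    choose hE0 hE1 E hEm hEp hEω using hE
    have key : ∀ β β' : A z, β.1 < β'.1 → AEDisjoint (envLaw d ν) (E β) (E β') := by
      intro β β' hlt
      refine pair_coex hd ν h (hE0 β) hlt (hE1 β') z ((hEm β).inter (hEm β')) ?_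
      rintro ω ⟨h3, h4⟩
      obtain ⟨t, θ, h6, -, h7⟩ := hEω β ω h3
      obtain ⟨t', θ', h8, h9, -⟩ := hEω β' ω h4
      exact ⟨⟨t, θ, h6, h7⟩, t', θ', h8, h9⟩
    have hd1 : Pairwise (Function.onFun (AEDisjoint (envLaw d ν)) E) := by
      intro β β' hne
      rcases lt_or_gt_of_ne (fun h10 => hne (Subtype.ext h10) : β.1 ≠ β'.1) with h11 | h11
      · exact key β β' h11
      · exact (key β' β h11).symm
    have h12 := Measure.countable_meas_pos_of_disjoint_iUnion₀ (μ := envLaw d ν)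
      (fun β => (hEm β).nullMeasurableSet) hd1
    have h13 : {β : A z | 0 < envLaw d ν (E β)} = Set.univ :=
      Set.eq_univ_of_forall fun β => hEp β
    rw [h13] at h12
    exact Set.countable_coe_iff.1 (Set.countable_univ_iff.1 h12)
  refine (Set.countable_iUnion hc).mono ?_
  rintro β ⟨h0, h1, z, -, h2⟩
  refine Set.mem_iUnion.2 ⟨z, ?_⟩
  rw [hA]
  exact ⟨h0, h1, h2⟩

end Frog81
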