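import Pool.Agent.H.MP_53e2a7_pr.h81.Defs
import Pool.Agent.H.MP_53e2a7_pr.he.Defs

/-!
# GlueP: glueing independent copies preserves the law

PROOF. `envLaw` is an `infinitePi`; the image of the product under glue has the right values on boxes `{ω | ∀ x ∈ s, ω x ∈ B x}`, `s` finite (`Measure.eq_infinitePi`): the
preimage of the box is the product of the boxes over `s ∩ K` and `s \ K` (`Measure.prod_prod`, `Measure.infinitePi_pi`).
-/

namespace Frog81

open MeasureTheory ProbabilityTheory Filter
open scoped ENNReal NNReal Topology

theorem glue_mp {d : ℕ} [NeZero d] (ν : Measure ℕ) [IsProbabilityMeasure ν] (K : Set (Site d)) :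
    MeasurePreserving (fun p : Env d × Env d => glue K p.1 p.2)
      ((envLaw d ν).prod (envLaw d ν)) (envLaw d ν) := by
  classical
  have hm : Measurable (fun p : Env d × Env d => glue K p.1 p.2) := by
    refine measurable_pi_iff.2 fun x => ?_
    by_cases hx : x ∈ K
    · have h1 : (fun p : Env d × Env d => glue K p.1 p.2 x) = fun p => p.1 x := by
        funext p
        simp [glue, hx]
      rw [h1]
      exact (measurable_pi_apply x).comp measurable_fst
    · have h1 : (fun p : Env d × Env d => glue K p.1 p.2 x) = fun p => p.2 x := by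
        funext p
        simp [glue, hx]
      rw [h1]
      exact (measurable_pi_apply x).comp measurable_snd
  refine ⟨hm, ?_⟩
  have key : Measure.map (fun p : Env d × Env d => glue K p.1 p.2)
      ((envLaw d ν).prod (envLaw d ν)) = Measure.infinitePi fun _ : Site d => siteLaw d ν := by
    apply Measure.eq_infinitePi
    intro s t ht
    have hms : MeasurableSet (Set.pi (s : Set (Site d)) t) :=
      MeasurableSet.pi (Finset.countable_toSet s) fun i _ => ht i
    rw [Measure.map_apply hm hms]
    have hpre : (fun p : Env d × Env d => glue K p.1 p.2) ⁻¹' (Set.pi (s : Set (Site d)) t) =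
        (Set.pi ((s.filter fun x => x ∈ K : Finset (Site d)) : Set (Site d)) t) ×ˢ
          (Set.pi ((s.filter fun x => ¬ x ∈ K : Finset (Site d)) : Set (Site d)) t) := by
      ext p
      constructor
      · intro h
        refine ⟨fun x hx => ?_, fun x hx => ?_⟩
        · have hx' := Finset.mem_filter.1 (Finset.mem_coe.1 hx)
          have h1 : glue K p.1 p.2 x ∈ t x := h x (Finset.mem_coe.2 hx'.1)
          simpa [glue, hx'.2] using h1
        · have hx' := Finset.mem_filter.1 (Finset.mem_coe.1 hx)
          have h1 : glue K p.1 p.2 x ∈ t x := h x (Finset.mem_coe.2 hx'.1)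
          simpa [glue, hx'.2] using h1
      · rintro ⟨h1, h2⟩ x hx
        show glue K p.1 p.2 x ∈ t x
        by_cases hxK : x ∈ K
        · have h3 := h1 x (Finset.mem_coe.2 (Finset.mem_filter.2 ⟨Finset.mem_coe.1 hx, hxK⟩))
          simpa [glue, hxK] using h3
        · have h3 := h2 x (Finset.mem_coe.2 (Finset.mem_filter.2 ⟨Finset.mem_coe.1 hx, hxK⟩))
          simpa [glue, hxK] using h3
    rw [hpre, Measure.prod_prod]
    have e1 : envLaw d ν (Set.pi ((s.filter fun x => x ∈ K : Finset (Site d)) : Set (Site d)) t) =
        ∏ i ∈ s.filter (fun x => x ∈ K), siteLaw d ν (t i) :=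
      Measure.infinitePi_pi _ fun i _ => ht i
    have e2 : envLaw d ν (Set.pi ((s.filter fun x => ¬ x ∈ K : Finset (Site d)) : Set (Site d)) t) =
        ∏ i ∈ s.filter (fun x => ¬ x ∈ K), siteLaw d ν (t i) :=
      Measure.infinitePi_pi _ fun i _ => ht i
    rw [e1, e2, Finset.prod_filter_mul_prod_filter_not]
  exact key

end Frog81
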