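import Pool.Agent.H.MP_53e2a7_pr.he.Loc

/-!
# Grow: growth along the axis of the cone

PROOF. `e = rv (ax i σ 1)`, `rv (ax i σ m) = m e`. `b = min (1/4) (c / (128 C d))`, `a = δ / (10 C)`, `κd = a b / 4` (then `d κd ≤ a`), `κ₁ = min (b/3) (1/(8d))`. `M₀` with `M₀ ≥ N`, `M₀ ≥ 16 d (4N+2) / c`,
`N + 1 ≤ C b M₀`. Let `m_j = M (1+b)^j` and `g_j` a Good site with `‖g_j - m_j e‖ ≤ κ m_j` (Dense; `g_0 = ax i σ M`). `‖g_{j+1} - g_j‖ ≤ (b + 3κ) m_j ≤ 2 b m_j`. All sites `w` with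
`‖w - g_j‖ ≤ (8 C b m_j + 4N+2)/c ≤ m_j / (8d)` are in `cone i σ \ {0}`: `‖w - m_j e‖ ≤ m_j/(4d)`, so the other coordinates sum up to at most `m_j/4`, the `i`-th is at least `3/4 m_j`.
So `good_local` gives for every `y` with `‖y - g_j‖ ≤ 2 b m_j`: `T (cut _ ω) g_j y ≤ 4 C b m_j + N + 1 ≤ 5 C b m_j`. For `r ≥ R = M / a` let `m_k ≤ a r < m_{k+1}` (`exists_nat_pow_near`).
`T g_0 g_k ≤ ∑_{j<k} 5 C b m_j ≤ 5 C m_k ≤ 5 C a r` (`T_triangle`, geometric sum: `b ∑_{j<k} m_j = m_k - M`), and for `‖y - a r e‖ ≤ κd r`: `‖y - g_k‖ ≤ κd r + b m_k + κ m_k ≤ 2 b m_k`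
(`r ≤ 2 m_k / a`), so `T g_k y ≤ 5 C b m_k ≤ 5 C a r`. Sum `≤ 10 C a r = δ r`.
-/

namespace Frog81

open MeasureTheory ProbabilityTheory Filter
open scoped ENNReal NNReal Topology

private theorem Grow_ax {d : ℕ} (i : Fin d) (σ : ℤ) (m : ℕ) :
    rv (ax i σ m) = (m : ℝ) • rv (ax i σ 1) := by
  funext j
  by_cases h : j = i
  · subst h
    simp [rv, ax, mul_comm]
  · simp [rv, ax, h]

private theorem Grow_e {d : ℕ} (i : Fin d) (σ : ℤ) (j : Fin d) :
    rv (ax i σ 1) j = if j = i then (σ : ℝ) else 0 := by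
  by_cases h : j = i
  · subst h
    simp [rv, ax]
  · simp [rv, ax, h]

private theorem Grow_norm {d : ℕ} (i : Fin d) {σ : ℤ} (hσ : σ = 1 ∨ σ = -1) :
    ‖rv (ax i σ 1)‖ = 1 := by
  have h1 : ‖(σ : ℝ)‖ = 1 := by
    rcases hσ with rfl | rfl
    · simp
    · simp
  apply le_antisymm
  · rw [pi_norm_le_iff_of_nonneg zero_le_one]
    intro j
    rw [Grow_e]
    by_cases h : j = i
    · rw [if_pos h, h1]
    · rw [if_neg h, norm_zero]
      exact zero_le_one
  · have h2 := norm_le_pi_norm (rv (ax i σ 1)) i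
    rw [Grow_e, if_pos rfl, h1] at h2
    exact h2

private theorem Grow_cone {d : ℕ} [NeZero d] (i : Fin d) {σ : ℤ} (hσ : σ = 1 ∨ σ = -1) {m : ℝ}
    (hm : 0 < m) {w : Site d} (hw : ‖rv w - m • rv (ax i σ 1)‖ ≤ m / (4 * d)) :
    w ∈ cone i σ \ {0} := by
  have hd1 : (1 : ℝ) ≤ d := by
    exact_mod_cast Nat.one_le_iff_ne_zero.2 (NeZero.ne d)
  have hd0 : (0 : ℝ) < d := by linarith
  have hq0 : 0 ≤ m / (4 * d) := by positivity
  have hq : m / (4 * d) ≤ m / 4 := by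
    apply div_le_div_of_nonneg_left hm.le (by norm_num) (by linarith)
  have h1 : ∀ j, |(w j : ℝ) - m * (if j = i then (σ : ℝ) else 0)| ≤ m / (4 * d) := by
    intro j
    have h2 := (norm_le_pi_norm (rv w - m • rv (ax i σ 1)) j).trans hw
    rw [Pi.sub_apply, Pi.smul_apply, Grow_e, smul_eq_mul, Real.norm_eq_abs] at h2
    exact h2
  have hi := h1 i
  rw [if_pos rfl] at hi
  have hwi : 3 / 4 * m ≤ (σ : ℝ) * w i ∧ |(w i : ℝ)| = (σ : ℝ) * w i := by
    rw [abs_le] at hi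
    rcases hσ with rfl | rfl
    · push_cast at hi ⊢
      have h3 : 3 / 4 * m ≤ 1 * (w i : ℝ) := by linarith [hi.1]
      refine ⟨h3, ?_⟩
      rw [one_mul]
      exact abs_of_nonneg (by linarith)
    · push_cast at hi ⊢
      have h3 : 3 / 4 * m ≤ -1 * (w i : ℝ) := by linarith [hi.2]
      refine ⟨h3, ?_⟩
      rw [neg_one_mul]
      exact abs_of_nonpos (by linarith)
  have hsum : ∑ j, |(w j : ℝ)| ≤ m / 4 + (σ : ℝ) * w i := by
    calc ∑ j, |(w j : ℝ)| ≤ ∑ j : Fin d, (m / (4 * d) + if j = i then |(w i : ℝ)| else 0) := by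
          refine Finset.sum_le_sum fun j _ => ?_
          by_cases h : j = i
          · rw [if_pos h, h]
            linarith
          · have h2 := h1 j
            rw [if_neg h, mul_zero, sub_zero] at h2
            rw [if_neg h, add_zero]
            exact h2
      _ = d * (m / (4 * d)) + |(w i : ℝ)| := by
          rw [Finset.sum_add_distrib, Finset.sum_const, Finset.sum_ite_eq' Finset.univ i,
            if_pos (Finset.mem_univ i), Finset.card_univ, Fintype.card_fin, nsmul_eq_mul]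
      _ = m / 4 + (σ : ℝ) * w i := by
          rw [hwi.2]
          field_simp
  refine ⟨?_, ?_⟩
  · have h4 : ∑ j, |(w j : ℝ)| ≤ 2 * ((σ : ℝ) * w i) := by linarith [hwi.1]
    have h5 : ((∑ j, |w j| : ℤ) : ℝ) ≤ ((2 * (σ * w i) : ℤ) : ℝ) := by
      push_cast
      exact h4
    exact Int.cast_le.1 h5
  · intro h0
    have h6 : w i = 0 := by
      rw [Set.mem_singleton_iff.1 h0]
      rfl
    have h7 := hwi.1
    rw [h6] at h7
    push_cast at h7
    linarith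

private theorem Grow_step {d : ℕ} [NeZero d] {μ : (Fin d → ℝ) → ℝ} {c C b κ m : ℝ} {N : ℕ}
    (hμ : IsGauge μ c C) (hb0 : 0 < b) (hb1 : b ≤ 1 / (4 * d)) (hb2 : b ≤ c / (128 * C * d))
    (hκ0 : 0 < κ) (hκb : κ ≤ b / 3) (hm0 : 0 < m) (hm1 : (4 * N + 2) / c ≤ m / (16 * d))
    (hm2 : (N : ℝ) + 1 ≤ C * b * m) (i : Fin d) {σ : ℤ} (hσ : σ = 1 ∨ σ = -1) {ω : Env d}
    {g : Site d} (hg : Good μ κ N ω g) (hgm : ‖rv g - m • rv (ax i σ 1)‖ ≤ κ * m)
    {y : Site d} (hy : ‖rv y - rv g‖ ≤ 2 * b * m) :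
    T (cut (cone i σ \ {0}) ω) g y ≤ ENNReal.ofReal (5 * C * b * m) := by
  have hc := hμ.c_pos
  have hC := hμ.C_pos
  have hd1 : (1 : ℝ) ≤ d := by
    exact_mod_cast Nat.one_le_iff_ne_zero.2 (NeZero.ne d)
  have hd0 : (0 : ℝ) < d := by linarith
  have hb3 : b ≤ 1 / 4 := by
    refine hb1.trans ?_
    apply div_le_div_of_nonneg_left zero_le_one (by norm_num) (by linarith)
  have hκ2 : κ ≤ 1 / 2 := by linarith
  have hK : ∀ w : Site d, ‖rv w - rv g‖ ≤ (4 * C * ‖rv y - rv g‖ + 4 * N + 2) / c →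
      w ∈ cone i σ \ {0} := by
    intro w hw
    apply Grow_cone i hσ hm0
    have e1 : rv w - m • rv (ax i σ 1) = (rv w - rv g) + (rv g - m • rv (ax i σ 1)) := by abel
    have e2 := norm_add_le (rv w - rv g) (rv g - m • rv (ax i σ 1))
    rw [← e1] at e2
    have e3 : (4 * C * ‖rv y - rv g‖ + 4 * N + 2) / c ≤ m / (16 * d) + m / (16 * d) := by
      have e4 : (4 * C * ‖rv y - rv g‖ + 4 * N + 2) / c =
          4 * C * ‖rv y - rv g‖ / c + (4 * N + 2) / c := by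
        rw [← add_div, add_assoc]
      rw [e4]
      refine add_le_add ?_ hm1
      have e5 : 4 * C * ‖rv y - rv g‖ ≤ 4 * C * (2 * b * m) :=
        mul_le_mul_of_nonneg_left hy (by positivity)
      have e6 : b * (128 * C * d) ≤ c := (le_div_iff₀ (by positivity)).1 hb2
      rw [div_le_div_iff₀ hc (by positivity)]
      calc 4 * C * ‖rv y - rv g‖ * (16 * d) ≤ 4 * C * (2 * b * m) * (16 * d) :=
            mul_le_mul_of_nonneg_right e5 (by positivity)
        _ = m * (b * (128 * C * d)) := by ring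
        _ ≤ m * c := mul_le_mul_of_nonneg_left e6 hm0.le
    have e7 : κ * m ≤ m / (8 * d) := by
      have e8 : κ ≤ 1 / (8 * d) := by
        have e9 : 1 / (4 * (d : ℝ)) = 2 * (1 / (8 * d)) := by
          field_simp
          norm_num
        have e10 : 0 < 1 / (8 * (d : ℝ)) := by positivity
        linarith
      calc κ * m ≤ 1 / (8 * d) * m := mul_le_mul_of_nonneg_right e8 hm0.le
        _ = m / (8 * d) := by ring
    have e11 : m / (16 * d) + m / (16 * d) = m / (8 * d) := by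
      field_simp
      norm_num
    have e12 : m / (8 * d) + m / (8 * d) = m / (4 * d) := by
      field_simp
      norm_num
    linarith
  refine (good_local hμ hκ0 hκ2 hg hK).trans (ENNReal.ofReal_le_ofReal ?_)
  have f1 := hμ.up (rv y - rv g)
  have f2 : C * ‖rv y - rv g‖ ≤ C * (2 * b * m) := mul_le_mul_of_nonneg_left hy hC.le
  have f3 : (1 + κ) * μ (rv y - rv g) ≤ (1 + κ) * (C * (2 * b * m)) :=
    mul_le_mul_of_nonneg_left (f1.trans f2) (by linarith)
  have f4 : (1 + κ) * (C * (2 * b * m)) ≤ 2 * (C * (2 * b * m)) :=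
    mul_le_mul_of_nonneg_right (by linarith) (by positivity)
  have f5 : 2 * (C * (2 * b * m)) = 4 * (C * b * m) := by ring
  have f6 : 5 * C * b * m = 5 * (C * b * m) := by ring
  rw [f6]
  linarith

private theorem Grow_chain {d : ℕ} [NeZero d] {μ : (Fin d → ℝ) → ℝ} {c C b κ : ℝ} {N M : ℕ}
    (hμ : IsGauge μ c C) (hb0 : 0 < b) (hb1 : b ≤ 1 / (4 * d)) (hb2 : b ≤ c / (128 * C * d))
    (hκ0 : 0 < κ) (hκb : κ ≤ b / 3) (hM0 : (0 : ℝ) < M) (hM1 : (4 * N + 2) / c ≤ M / (16 * d))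
    (hM2 : (N : ℝ) + 1 ≤ C * b * M) (hNM : (N : ℝ) ≤ M) (i : Fin d) {σ : ℤ}
    (hσ : σ = 1 ∨ σ = -1) {ω : Env d} (hD : Dense μ κ N ω) (hg : Good μ κ N ω (ax i σ M))
    (k : ℕ) : ∃ g, Good μ κ N ω g ∧
      ‖rv g - (M * (1 + b) ^ k) • rv (ax i σ 1)‖ ≤ κ * (M * (1 + b) ^ k) ∧
      ∀ y, ‖rv y - rv g‖ ≤ 2 * b * (M * (1 + b) ^ k) →
        T (cut (cone i σ \ {0}) ω) (ax i σ M) y ≤
          ENNReal.ofReal (5 * C * (M * (1 + b) ^ k) * (1 + b)) := by
  have hc := hμ.c_pos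
  have hC := hμ.C_pos
  have hd1 : (1 : ℝ) ≤ d := by
    exact_mod_cast Nat.one_le_iff_ne_zero.2 (NeZero.ne d)
  have hd0 : (0 : ℝ) < d := by linarith
  have hb3 : b ≤ 1 / 4 := by
    refine hb1.trans ?_
    apply div_le_div_of_nonneg_left zero_le_one (by norm_num) (by linarith)
  have hmM : ∀ j : ℕ, (M : ℝ) ≤ M * (1 + b) ^ j := by
    intro j
    have h1 : 1 ≤ (1 + b) ^ j := one_le_pow₀ (by linarith)
    nlinarith
  have hstep : ∀ (j : ℕ) (g : Site d), Good μ κ N ω g →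
      ‖rv g - (M * (1 + b) ^ j) • rv (ax i σ 1)‖ ≤ κ * (M * (1 + b) ^ j) → ∀ y : Site d,
        ‖rv y - rv g‖ ≤ 2 * b * (M * (1 + b) ^ j) →
          T (cut (cone i σ \ {0}) ω) g y ≤ ENNReal.ofReal (5 * C * b * (M * (1 + b) ^ j)) := by
    intro j g h1 h2 y h3
    have h4 := hmM j
    refine Grow_step hμ hb0 hb1 hb2 hκ0 hκb (by linarith) (hM1.trans ?_) (hM2.trans ?_) i hσ h1
      h2 h3
    · gcongr
    · gcongr
  induction k with
  | zero =>
    have h1 : ‖rv (ax i σ M) - (M * (1 + b) ^ 0) • rv (ax i σ 1)‖ ≤ κ * (M * (1 + b) ^ 0) := by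
      rw [pow_zero, mul_one, Grow_ax, sub_self, norm_zero]
      positivity
    refine ⟨ax i σ M, hg, h1, fun y hy => (hstep 0 _ hg h1 y hy).trans
      (ENNReal.ofReal_le_ofReal ?_)⟩
    have h2 := hmM 0
    have h3 : 0 < C * (M * (1 + b) ^ 0) := by positivity
    nlinarith
  | succ k ih =>
    obtain ⟨g, h1, h2, h3⟩ := ih
    obtain ⟨m, hm⟩ : ∃ m : ℝ, m = M * (1 + b) ^ k := ⟨_, rfl⟩
    have hm' : (M : ℝ) * (1 + b) ^ (k + 1) = m * (1 + b) := by
      rw [hm, pow_succ]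
      ring
    have hstep' := hstep (k + 1)
    have hmk := hmM k
    have hmk' := hmM (k + 1)
    rw [hm'] at hstep' hmk' ⊢
    rw [← hm] at h2 h3 hmk
    have hm0 : 0 < m := by linarith
    have hm1 : 0 < m * (1 + b) := by positivity
    have hne : ‖(m * (1 + b)) • rv (ax i σ 1)‖ = m * (1 + b) := by
      rw [norm_smul, Grow_norm i hσ, mul_one, Real.norm_eq_abs, abs_of_pos hm1]
    obtain ⟨g', h4, h5⟩ := hD ((m * (1 + b)) • rv (ax i σ 1)) (by rw [hne]; linarith)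
    rw [hne] at h5
    refine ⟨g', h4, h5, fun y hy => ?_⟩
    have h6 : ‖rv g' - rv g‖ ≤ 2 * b * m := by
      have e1 : rv g' - rv g = (rv g' - (m * (1 + b)) • rv (ax i σ 1)) +
          ((m * b) • rv (ax i σ 1)) + (m • rv (ax i σ 1) - rv g) := by
        rw [mul_add, mul_one, add_smul]
        abel
      have e2 : ‖(m * b) • rv (ax i σ 1)‖ = m * b := by
        rw [norm_smul, Grow_norm i hσ, mul_one, Real.norm_eq_abs, abs_of_pos (by positivity)]
      have e3 : ‖m • rv (ax i σ 1) - rv g‖ ≤ κ * m := by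
        rw [norm_sub_rev]
        exact h2
      have e4 : ‖rv g' - rv g‖ ≤ κ * (m * (1 + b)) + m * b + κ * m := by
        rw [e1]
        refine (norm_add_le _ _).trans (add_le_add ((norm_add_le _ _).trans ?_) e3)
        rw [e2]
        linarith
      have e5 : κ * (m * (1 + b)) ≤ κ * (m * 2) := by
        gcongr
        linarith
      have e6 : κ * m ≤ b / 3 * m := mul_le_mul_of_nonneg_right hκb hm0.le
      linarith
    have h7 := h3 g' h6
    have h8 := hstep' g' h4 h5 y hy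
    have h9 := (T_triangle (cut (cone i σ \ {0}) ω) (ax i σ M) g' y).trans (add_le_add h7 h8)
    refine h9.trans (le_of_eq ?_)
    rw [← ENNReal.ofReal_add (by positivity) (by positivity)]
    congr 1
    ring

theorem grow {d : ℕ} [NeZero d] {μ : (Fin d → ℝ) → ℝ} {c C : ℝ} (hμ : IsGauge μ c C) {δ : ℝ}
    (hδ : 0 < δ) : ∃ a κd κ₁ : ℝ, 0 < a ∧ 0 < κd ∧ (d : ℝ) * κd ≤ a ∧ 0 < κ₁ ∧ ∀ κ : ℝ, 0 < κ →
      κ ≤ κ₁ → ∀ N : ℕ, ∃ M₀ : ℕ, ∀ M : ℕ, M₀ ≤ M → ∃ R : ℝ, ∀ (ω : Env d) (i : Fin d) (σ : ℤ),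
        σ = 1 ∨ σ = -1 → Dense μ κ N ω → Good μ κ N ω (ax i σ M) → ∀ r : ℕ, R ≤ r →
          ∀ y : Site d, ‖rv y - (a * r) • rv (ax i σ 1)‖ ≤ κd * r →
            T (cut (cone i σ \ {0}) ω) (ax i σ M) y ≤ ENNReal.ofReal (δ * r) := by
  have hc := hμ.c_pos
  have hC := hμ.C_pos
  have hd1 : (1 : ℝ) ≤ d := by
    exact_mod_cast Nat.one_le_iff_ne_zero.2 (NeZero.ne d)
  have hd0 : (0 : ℝ) < d := by linarith
  obtain ⟨b, hb⟩ : ∃ b : ℝ, b = min (1 / (4 * (d : ℝ))) (c / (128 * C * (d : ℝ))) := ⟨_, rfl⟩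
  have hb0 : 0 < b := by
    rw [hb]
    exact lt_min (by positivity) (by positivity)
  have hb1 : b ≤ 1 / (4 * d) := by
    rw [hb]
    exact min_le_left _ _
  have hb2 : b ≤ c / (128 * C * d) := by
    rw [hb]
    exact min_le_right _ _
  have hb3 : b ≤ 1 / 4 := by
    refine hb1.trans ?_
    apply div_le_div_of_nonneg_left zero_le_one (by norm_num) (by linarith)
  obtain ⟨a, ha⟩ : ∃ a : ℝ, a = δ / (10 * C) := ⟨_, rfl⟩
  have ha0 : 0 < a := by
    rw [ha]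
    positivity
  have haδ : 10 * C * a = δ := by
    rw [ha]
    field_simp
  refine ⟨a, a * b / 4, b / 3, ha0, by positivity, ?_, by positivity, ?_⟩
  · have h1 : b * (4 * d) ≤ 1 := (le_div_iff₀ (by positivity)).1 hb1
    nlinarith
  intro κ hκ0 hκb N
  obtain ⟨M₀, hM₀⟩ := exists_nat_ge (max (N : ℝ) (max 1 (max ((4 * N + 2) / c * (16 * d))
    (((N : ℝ) + 1) / (C * b)))))
  refine ⟨M₀, fun M hM => ⟨M / a, ?_⟩⟩
  have hMM : (M₀ : ℝ) ≤ M := by exact_mod_cast hM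
  have k1 : (N : ℝ) ≤ M := (le_max_left _ _).trans (hM₀.trans hMM)
  have k0 := (le_max_right _ _).trans (hM₀.trans hMM)
  have k2 : (1 : ℝ) ≤ M := (le_max_left _ _).trans k0
  have k3 := (le_max_right _ _).trans k0
  have k4 : (4 * N + 2) / c * (16 * d) ≤ (M : ℝ) := (le_max_left _ _).trans k3
  have k5 : ((N : ℝ) + 1) / (C * b) ≤ M := (le_max_right _ _).trans k3
  have hM0 : (0 : ℝ) < M := by linarith
  have hM1 : (4 * N + 2) / c ≤ (M : ℝ) / (16 * d) := (le_div_iff₀ (by positivity)).2 k4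
  have hM2 : (N : ℝ) + 1 ≤ C * b * M := by
    have h1 := (div_le_iff₀ (by positivity)).1 k5
    linarith
  intro ω i σ hσ hD hg r hr y hy
  have hr1 : (M : ℝ) ≤ a * r := by
    have h1 := (div_le_iff₀ ha0).1 hr
    linarith
  obtain ⟨k, hk1, hk2⟩ := exists_nat_pow_near (x := a * r / M) (y := 1 + b)
    (by rw [le_div_iff₀ hM0]; linarith) (by linarith)
  obtain ⟨g, h1, h2, h3⟩ := Grow_chain hμ hb0 hb1 hb2 hκ0 hκb hM0 hM1 hM2 k1 i hσ hD hg k
  obtain ⟨m, hm⟩ : ∃ m : ℝ, m = M * (1 + b) ^ k := ⟨_, rfl⟩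
  rw [← hm] at h2 h3
  have hm0 : 0 < m := by
    rw [hm]
    positivity
  have hm1 : m ≤ a * r := by
    have h4 := (le_div_iff₀ hM0).1 hk1
    rw [hm]
    linarith
  have hm2 : a * r ≤ m * (1 + b) := by
    have h4 := (div_lt_iff₀ hM0).1 hk2
    rw [hm]
    rw [pow_succ] at h4
    linarith
  have hm3 : a * r ≤ m * 2 := hm2.trans (mul_le_mul_of_nonneg_left (by linarith) hm0.le)
  have hyg : ‖rv y - rv g‖ ≤ 2 * b * m := by
    have e1 : rv y - rv g = (rv y - (a * r) • rv (ax i σ 1)) +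
        ((a * r - m) • rv (ax i σ 1)) + (m • rv (ax i σ 1) - rv g) := by
      rw [sub_smul]
      abel
    have e2 : ‖(a * r - m) • rv (ax i σ 1)‖ = a * r - m := by
      rw [norm_smul, Grow_norm i hσ, mul_one, Real.norm_eq_abs, abs_of_nonneg (by linarith)]
    have e3 : ‖m • rv (ax i σ 1) - rv g‖ ≤ κ * m := by
      rw [norm_sub_rev]
      exact h2
    have e4 : ‖rv y - rv g‖ ≤ a * b / 4 * r + (a * r - m) + κ * m := by
      rw [e1]
      refine (norm_add_le _ _).trans (add_le_add ((norm_add_le _ _).trans ?_) e3)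
      rw [e2]
      linarith
    have e5 : κ * m ≤ b / 3 * m := mul_le_mul_of_nonneg_right hκb hm0.le
    have e6 : b / 4 * (a * r) ≤ b / 4 * (m * 2) := mul_le_mul_of_nonneg_left hm3 (by positivity)
    have e7 : a * b / 4 * r = b / 4 * (a * r) := by ring
    have e8 : 0 < b * m := by positivity
    rw [e7] at e4
    linarith
  refine (h3 y hyg).trans (ENNReal.ofReal_le_ofReal ?_)
  calc 5 * C * m * (1 + b) = 5 * C * (m * (1 + b)) := by ring
    _ ≤ 5 * C * (a * r * 2) := by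
        refine mul_le_mul_of_nonneg_left ?_ (by positivity)
        calc m * (1 + b) ≤ (a * r) * (1 + b) := mul_le_mul_of_nonneg_right hm1 (by linarith)
          _ ≤ a * r * 2 := mul_le_mul_of_nonneg_left (by linarith) (by linarith)
    _ = 10 * C * a * r := by ring
    _ = δ * r := by rw [haδ]

end Frog81
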