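import Pool.Agent.H.MP_53e2a7_pr.he.GlueP

/-!
# Levy: Levy's zero-one law

PROOF. Filtration `F n` = the sigma algebra generated by the coordinates `ω x`, `x ∈ K n` (comap of the restriction map); it is increasing and generates everything.
`f n ω = P {ω' | glue (K n) ω ω' ∈ G}` is `F n`-measurable (it depends on `ω` on `K n` only: for instance `f n ω = f n (glue (K n) ω ω₀)`, and
`ω ↦ glue (K n) ω ω₀` is measurable from `F n`) and `(f n).toReal` is a version of the conditional expectation of the indicator of `G`: for `B` in `F n`,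
`∫_B f n = (P × P) {glue ∈ B ∩ G} = P (B ∩ G)` by `glue_mp` (`glue (K n) ω ω' ∈ B ↔ ω ∈ B`); `ae_eq_condExp_of_forall_setIntegral_eq`. Levy's upward theorem
(`MeasureTheory.tendsto_ae_condExp` or `Integrable.tendsto_ae_condExp`) gives convergence to the indicator of `G` almost surely.
-/

namespace Frog81

open MeasureTheory ProbabilityTheory Filter
open scoped ENNReal NNReal Topology

/-- the restriction of an environment to the sites in `K` -/
private def Levy_res {d : ℕ} (K : Set (Site d)) (ω : Env d) : K → SiteData d := fun x => ω x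

private theorem Levy_res_meas {d : ℕ} (K : Set (Site d)) : Measurable (Levy_res K) :=
  measurable_pi_lambda _ fun _ => measurable_pi_apply _

private theorem Levy_res_glue {d : ℕ} (K : Set (Site d)) (ω ω' : Env d) :
    Levy_res K (glue K ω ω') = Levy_res K ω := by
  funext x
  unfold Levy_res glue
  rw [if_pos x.2]

private theorem Levy_glue_glue {d : ℕ} (K : Set (Site d)) (ω ω₀ ω' : Env d) :
    glue K (glue K ω ω₀) ω' = glue K ω ω' := by
  funext x
  unfold glue
  by_cases h : x ∈ K
  · rw [if_pos h, if_pos h, if_pos h]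
  · rw [if_neg h, if_neg h]

/-- the filtration -/
private def Levy_F {d : ℕ} (K : ℕ → Set (Site d)) (hmono : Monotone K) :
    Filtration ℕ (MeasurableSpace.pi : MeasurableSpace (Env d)) where
  seq n := MeasurableSpace.comap (Levy_res (K n)) MeasurableSpace.pi
  mono' := by
    intro n m hnm
    have h1 : Measurable[MeasurableSpace.comap (Levy_res (K m)) MeasurableSpace.pi]
        (Levy_res (K n)) := by
      refine @measurable_pi_lambda _ _ _ (_) _ _ fun x => ?_
      have h2 : Measurable[MeasurableSpace.comap (Levy_res (K m)) MeasurableSpace.pi]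
          (Levy_res (K m)) := comap_measurable _
      exact (measurable_pi_apply (⟨x.1, hmono hnm x.2⟩ : K m)).comp h2
    exact h1.comap_le
  le' n := (Levy_res_meas (K n)).comap_le

private theorem Levy_top {d : ℕ} (K : ℕ → Set (Site d)) (hmono : Monotone K)
    (hun : ∀ y, ∃ n, y ∈ K n) :
    (MeasurableSpace.pi : MeasurableSpace (Env d)) ≤ ⨆ n, Levy_F K hmono n := by
  refine iSup_le fun y => ?_
  obtain ⟨n, hn⟩ := hun y
  refine le_trans ?_ (le_iSup (fun n => (Levy_F K hmono n : MeasurableSpace (Env d))) n)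
  have h2 : Measurable[MeasurableSpace.comap (Levy_res (K n)) MeasurableSpace.pi]
      (Levy_res (K n)) := comap_measurable _
  have h3 : Measurable[MeasurableSpace.comap (Levy_res (K n)) MeasurableSpace.pi]
      (fun ω : Env d => ω y) := (measurable_pi_apply (⟨y, hn⟩ : K n)).comp h2
  exact h3.comap_le

private theorem Levy_glue_meas {d : ℕ} (K : ℕ → Set (Site d)) (hmono : Monotone K) (n : ℕ)
    (ω₀ : Env d) : Measurable[Levy_F K hmono n] (fun ω : Env d => glue (K n) ω ω₀) := by
  refine @measurable_pi_lambda _ _ _ (_) _ _ fun y => ?_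
  by_cases hy : y ∈ K n
  · have e : (fun ω : Env d => glue (K n) ω ω₀ y) = fun ω : Env d => Levy_res (K n) ω ⟨y, hy⟩ := by
      funext ω
      unfold glue Levy_res
      rw [if_pos hy]
    rw [e]
    have h2 : Measurable[MeasurableSpace.comap (Levy_res (K n)) MeasurableSpace.pi]
        (Levy_res (K n)) := comap_measurable _
    exact (measurable_pi_apply (⟨y, hy⟩ : K n)).comp h2
  · have e : (fun ω : Env d => glue (K n) ω ω₀ y) = fun _ : Env d => ω₀ y := by
      funext ω
      unfold glue
      rw [if_neg hy]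
    rw [e]
    exact @measurable_const _ _ _ (_) _

theorem levy {d : ℕ} [NeZero d] (ν : Measure ℕ) [IsProbabilityMeasure ν] {G : Set (Env d)}
    (hG : MeasurableSet G) (K : ℕ → Set (Site d)) (hmono : Monotone K)
    (hun : ∀ y, ∃ n, y ∈ K n) : ∀ᵐ ω ∂ envLaw d ν, ω ∈ G →
      Tendsto (fun n => envLaw d ν {ω' | glue (K n) ω ω' ∈ G}) atTop (𝓝 1) := by
  set P := envLaw d ν with hP
  set f : ℕ → Env d → ℝ≥0∞ := fun n ω => P {ω' | glue (K n) ω ω' ∈ G} with hf
  set g : Env d → ℝ := G.indicator (fun _ => (1 : ℝ)) with hg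
  have hgi : Integrable g P := (integrable_const (1 : ℝ)).indicator hG
  have hmeas : ∀ n, Measurable fun p : Env d × Env d => glue (K n) p.1 p.2 :=
    fun n => (glue_mp ν (K n)).measurable
  have hfm0 : ∀ n, Measurable (f n) := by
    intro n
    exact measurable_measure_prodMk_left (ν := P) (hmeas n hG)
  have hfm : ∀ n, Measurable[Levy_F K hmono n] (f n) := by
    intro n
    have ω₀ : Env d := fun _ => (0, fun _ _ => (0, (0, true)))
    have e : f n = fun ω => f n (glue (K n) ω ω₀) := by
      funext ω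
      show P {ω' | glue (K n) ω ω' ∈ G} = P {ω' | glue (K n) (glue (K n) ω ω₀) ω' ∈ G}
      simp_rw [Levy_glue_glue]
    rw [e]
    exact (hfm0 n).comp (Levy_glue_meas K hmono n ω₀)
  have hf1 : ∀ n ω, f n ω ≤ 1 := fun n ω => prob_le_one
  have hftop : ∀ n ω, f n ω ≠ ⊤ := fun n ω => ((hf1 n ω).trans_lt ENNReal.one_lt_top).ne
  have hfi : ∀ n, Integrable (fun ω => (f n ω).toReal) P := by
    intro n
    refine Integrable.of_bound (hfm0 n).ennreal_toReal.aestronglyMeasurable 1
      (Eventually.of_forall fun ω => ?_)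
    rw [Real.norm_of_nonneg ENNReal.toReal_nonneg]
    exact ENNReal.toReal_le_of_le_ofReal zero_le_one (by simpa using hf1 n ω)
  have hset : ∀ n, ∀ s : Set (Env d), MeasurableSet[Levy_F K hmono n] s →
      ∫⁻ ω in s, f n ω ∂P = P (s ∩ G) := by
    intro n s hs
    have hs0 : MeasurableSet s := (Levy_F K hmono).le n s hs
    obtain ⟨s', hs', hss⟩ := hs
    have hmem : ∀ ω ω', glue (K n) ω ω' ∈ s ↔ ω ∈ s := by
      intro ω ω'
      rw [← hss]
      show Levy_res (K n) (glue (K n) ω ω') ∈ s' ↔ Levy_res (K n) ω ∈ s'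
      rw [Levy_res_glue]
    have h1 := (glue_mp ν (K n)).measure_preimage (hs0.inter hG).nullMeasurableSet
    rw [← h1, Measure.prod_apply (hmeas n (hs0.inter hG)), ← lintegral_indicator hs0]
    refine lintegral_congr fun ω => ?_
    by_cases hω : ω ∈ s
    · rw [Set.indicator_of_mem hω]
      show P {ω' | glue (K n) ω ω' ∈ G} = P {ω' | glue (K n) ω ω' ∈ s ∩ G}
      congr 1
      ext ω'
      show glue (K n) ω ω' ∈ G ↔ glue (K n) ω ω' ∈ s ∧ glue (K n) ω ω' ∈ G
      rw [hmem]
      exact ⟨fun h => ⟨hω, h⟩, fun h => h.2⟩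
    · rw [Set.indicator_of_notMem hω]
      symm
      show P {ω' | glue (K n) ω ω' ∈ s ∩ G} = 0
      have e : {ω' | glue (K n) ω ω' ∈ s ∩ G} = ∅ := by
        ext ω'
        show (glue (K n) ω ω' ∈ s ∧ glue (K n) ω ω' ∈ G) ↔ False
        rw [hmem]
        exact ⟨fun h => hω h.1, fun h => h.elim⟩
      rw [e, measure_empty]
  have hce : ∀ n, (fun ω => (f n ω).toReal) =ᵐ[P] P[g | Levy_F K hmono n] := by
    intro n
    refine ae_eq_condExp_of_forall_setIntegral_eq ((Levy_F K hmono).le n) hgi
      (fun s _ _ => (hfi n).integrableOn) (fun s hs _ => ?_) ?_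
    · have hs0 : MeasurableSet s := (Levy_F K hmono).le n s hs
      rw [integral_toReal (hfm0 n).aemeasurable
        (Eventually.of_forall fun ω => (hf1 n ω).trans_lt ENNReal.one_lt_top), hset n s hs, hg,
        integral_indicator hG, Measure.restrict_restrict hG]
      simp only [integral_const, smul_eq_mul, mul_one]
      rw [Set.inter_comm]
      simp [Measure.real]
    · exact ((hfm n).ennreal_toReal).stronglyMeasurable.aestronglyMeasurable
  have hgm : StronglyMeasurable[⨆ n, Levy_F K hmono n] g := by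
    have hG' : MeasurableSet[⨆ n, Levy_F K hmono n] G := Levy_top K hmono hun G hG
    exact StronglyMeasurable.indicator stronglyMeasurable_const hG'
  have hlev := hgi.tendsto_ae_condExp (ℱ := Levy_F K hmono) hgm
  filter_upwards [hlev, ae_all_iff.2 hce] with ω h1 h2 hω
  have h3 : Tendsto (fun n => (f n ω).toReal) atTop (𝓝 (1 : ℝ≥0∞).toReal) := by
    have e : g ω = (1 : ℝ≥0∞).toReal := by
      rw [hg, Set.indicator_of_mem hω, ENNReal.toReal_one]
    rw [← e]
    exact h1.congr fun n => (h2 n).symm
  exact (ENNReal.tendsto_toReal_iff (fun n => hftop n ω) ENNReal.one_ne_top).1 h3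

end Frog81
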