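import Pool.Agent.H.MP_53e2a7_pr.h81.Basic
import Pool.Agent.H.MP_53e2a7_pr.he.Defs

/-!
# Loc: the growth from a regular site is local

PROOF. There is a list `l` with `cost ω g (l ++ [y]) ≤ T ω g y + 1 ≤ ofReal ((1+κ) μ (y-g) + N + 1)`. Every site `w` of the chain (also `g`) has `T ω g w ≤` this number, and
Good gives `(1-κ) μ (w-g) - N ≤ (1+κ) μ (y-g) + N + 1 ≤ 2 C ‖y-g‖ + N + 1`, `1-κ ≥ 1/2`, so `‖w-g‖ ≤ μ (w-g) / c ≤ (4 C ‖y-g‖ + 4 N + 2) / c` and `w ∈ K`. So the cost in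
`cut K ω` is the same (`travel (cut K ω) a b = travel ω a b` for `a ∈ K`).
-/

namespace Frog81

open MeasureTheory ProbabilityTheory Filter
open scoped ENNReal NNReal Topology

private theorem Loc_travel {d : ℕ} {K : Set (Site d)} {ω : Env d} {a : Site d} (ha : a ∈ K)
    (b : Site d) : travel (cut K ω) a b = travel ω a b := by
  have h : cut K ω a = ω a := if_pos ha
  unfold travel
  rw [h]

private theorem Loc_aux {d : ℕ} {ω : Env d} {g y : Site d} {K : Set (Site d)} {B : ℝ≥0∞}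
    (hin : ∀ a, T ω g a ≤ B → a ∈ K) (l : List (Site d)) :
    ∀ (a : Site d) (s : ℝ≥0∞), T ω g a ≤ s → s + cost ω a (l ++ [y]) ≤ B →
      cost (cut K ω) a (l ++ [y]) = cost ω a (l ++ [y]) := by
  induction l with
  | nil =>
    intro a s hT hs
    have ha : a ∈ K := hin a (hT.trans (le_self_add.trans hs))
    have h1 : cost (cut K ω) a ([] ++ [y]) = travel (cut K ω) a y := by simp [cost]
    have h2 : cost ω a ([] ++ [y]) = travel ω a y := by simp [cost]
    rw [h1, h2, Loc_travel ha]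
  | cons b l ih =>
    intro a s hT hs
    have ha : a ∈ K := hin a (hT.trans (le_self_add.trans hs))
    have h1 : cost (cut K ω) a ((b :: l) ++ [y]) =
      travel (cut K ω) a b + cost (cut K ω) b (l ++ [y]) := rfl
    have h2 : cost ω a ((b :: l) ++ [y]) = travel ω a b + cost ω b (l ++ [y]) := rfl
    rw [h2, ← add_assoc] at hs
    rw [h1, h2, Loc_travel ha,
      ih b (s + travel ω a b)
        ((T_triangle ω g a b).trans (add_le_add hT (T_le_travel ω a b))) hs]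

theorem good_local {d : ℕ} {μ : (Fin d → ℝ) → ℝ} {c C κ : ℝ} (hμ : IsGauge μ c C) (hκ0 : 0 < κ)
    (hκ1 : κ ≤ 1 / 2) {N : ℕ} {ω : Env d} {g : Site d} (hg : Good μ κ N ω g) {K : Set (Site d)}
    {y : Site d} (hK : ∀ w : Site d, ‖rv w - rv g‖ ≤ (4 * C * ‖rv y - rv g‖ + 4 * N + 2) / c →
      w ∈ K) : T (cut K ω) g y ≤ ENNReal.ofReal ((1 + κ) * μ (rv y - rv g) + N + 1) := by
  have hN : (0 : ℝ) ≤ N := Nat.cast_nonneg N
  have hm0 : 0 ≤ μ (rv y - rv g) :=
    (mul_nonneg hμ.c_pos.le (norm_nonneg _)).trans (hμ.low _)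
  have hB0 : 0 ≤ (1 + κ) * μ (rv y - rv g) + N := add_nonneg (mul_nonneg (by linarith) hm0) hN
  have hin : ∀ a, T ω g a ≤ ENNReal.ofReal ((1 + κ) * μ (rv y - rv g) + N + 1) → a ∈ K := by
    intro a ha
    refine hK a ?_
    have h1 := (hg.2 a).2.trans ha
    have h2 := (ENNReal.ofReal_le_ofReal_iff (by linarith)).1 h1
    have h3 := hμ.low (rv a - rv g)
    have h4 := hμ.up (rv y - rv g)
    have h5 : 0 ≤ μ (rv a - rv g) := (mul_nonneg hμ.c_pos.le (norm_nonneg _)).trans h3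
    have h6 : 0 ≤ C * ‖rv y - rv g‖ := mul_nonneg hμ.C_pos.le (norm_nonneg _)
    rw [le_div_iff₀ hμ.c_pos]
    have h7 : (1 + κ) * μ (rv y - rv g) ≤ 3 / 2 * (C * ‖rv y - rv g‖) :=
      mul_le_mul (by linarith) h4 hm0 (by norm_num)
    have h8 : 1 / 2 * μ (rv a - rv g) ≤ (1 - κ) * μ (rv a - rv g) :=
      mul_le_mul_of_nonneg_right (by linarith) h5
    nlinarith
  have h1 : T ω g y < ENNReal.ofReal ((1 + κ) * μ (rv y - rv g) + N + 1) :=
    (hg.2 y).1.trans_lt ((ENNReal.ofReal_lt_ofReal_iff (by linarith)).2 (by linarith))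
  have h2 : (⨅ l : List (Site d), cost ω g (l ++ [y])) <
      ENNReal.ofReal ((1 + κ) * μ (rv y - rv g) + N + 1) := h1
  obtain ⟨l, hl⟩ := iInf_lt_iff.1 h2
  have h3 : cost (cut K ω) g (l ++ [y]) = cost ω g (l ++ [y]) :=
    Loc_aux hin l g 0 (T_self ω g hg.1).le (by rw [zero_add]; exact hl.le)
  have h4 : T (cut K ω) g y ≤ cost (cut K ω) g (l ++ [y]) := iInf_le _ l
  exact h4.trans (h3.le.trans hl.le)

end Frog81
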