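import Pool.Agent.H.MP_53e2a7_pr.h81.Inv
import Pool.Agent.H.MP_53e2a7_pr.h81.Meas
import Pool.Agent.H.MP_53e2a7_pr.he.Defs

/-!
# Wlk: a particle goes straight with positive probability

PROOF. The walk `w` of particle 0 of the origin: with probability `(1/(2d))^M > 0` its first `M` steps are `σ e_i` (`Measure.infinitePi` of the finite box; the direction `(i, σ = 1)`), then
`hit 0 (ax i σ M) w ≤ ofReal (clock w M) < ⊤`. So `P {1 ≤ (ω 0).1 ∧ travel ω 0 (ax i σ M) < ⊤} > 0` (number and walks at a site are independent: `siteLaw` is a product;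
`measurePreserving_site`; `ν {n | 1 ≤ n} = ν {0}ᶜ ≠ 0`), and this event is the countable union over `L : ℕ` of the events of the theorem.
-/

namespace Frog81

open MeasureTheory ProbabilityTheory Filter
open scoped ENNReal NNReal Topology

private theorem Wlk_unit {d : ℕ} (i : Fin d) {σ : ℤ} (hσ : σ = 1 ∨ σ = -1) :
    unit (i, decide (σ = 1)) = (Pi.single i σ : Site d) := by
  funext j
  unfold unit
  by_cases h : j = i
  · subst h
    rcases hσ with rfl | rfl
    · simp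
    · simp
  · rw [if_neg h, Pi.single_eq_of_ne h]

private theorem Wlk_pos {d : ℕ} (i : Fin d) {σ : ℤ} (hσ : σ = 1 ∨ σ = -1) (M : ℕ) (w : Walk d)
    (hw : ∀ n < M, (w n).2 = (i, decide (σ = 1))) : pos 0 w M = ax i σ M := by
  unfold pos ax
  rw [Finset.sum_congr rfl (fun n hn => by rw [hw n (Finset.mem_range.1 hn), Wlk_unit i hσ]),
    Finset.sum_const, Finset.card_range, zero_add]
  funext j
  by_cases h : j = i
  · subst h
    rw [Pi.smul_apply, Pi.single_eq_same, Pi.single_eq_same, nsmul_eq_mul, mul_comm]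
  · rw [Pi.smul_apply, Pi.single_eq_of_ne h, Pi.single_eq_of_ne h, smul_zero]

private theorem Wlk_step {d : ℕ} [NeZero d] (a : Dir d) : stepLaw d {a} ≠ 0 := by
  unfold stepLaw
  rw [uniformOn_univ, Measure.count_singleton]
  exact (ENNReal.div_pos one_ne_zero (ENNReal.natCast_ne_top _)).ne'

private theorem Wlk_box {d : ℕ} [NeZero d] (a : Dir d) (M : ℕ) :
    MeasurableSet {w : Walk d | ∀ n < M, (w n).2 = a} ∧
      walkLaw d {w : Walk d | ∀ n < M, (w n).2 = a} ≠ 0 := by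
  have h : {w : Walk d | ∀ n < M, (w n).2 = a} =
      Set.pi (Finset.range M : Finset ℕ) (fun _ => Prod.snd ⁻¹' ({a} : Set (Dir d))) := by
    ext w
    simp [Set.mem_pi]
  have hm : MeasurableSet (Prod.snd ⁻¹' ({a} : Set (Dir d)) : Set (ℝ × Dir d)) :=
    measurable_snd (measurableSet_singleton a)
  rw [h]
  refine ⟨MeasurableSet.pi (Finset.countable_toSet _) fun _ _ => hm, ?_⟩
  unfold walkLaw
  rw [Measure.infinitePi_pi _ fun _ _ => hm, Finset.prod_const]
  apply pow_ne_zero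
  have h2 : ((expMeasure 1).prod (stepLaw d)) (Prod.snd ⁻¹' {a}) = stepLaw d {a} :=
    (measurePreserving_snd (μ := expMeasure 1) (ν := stepLaw d)).measure_preimage
      (measurableSet_singleton a).nullMeasurableSet
  rw [h2]
  exact Wlk_step a

theorem exists_travel_le {d : ℕ} [NeZero d] (ν : Measure ℕ) [IsProbabilityMeasure ν]
    (hν : ν {0}ᶜ ≠ 0) (i : Fin d) {σ : ℤ} (hσ : σ = 1 ∨ σ = -1) (M : ℕ) :
    ∃ L : ℕ, envLaw d ν {ω | 1 ≤ (ω 0).1 ∧ travel ω 0 (ax i σ M) ≤ (L : ℝ≥0∞)} ≠ 0 := by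
  by_contra hcon
  push Not at hcon
  obtain ⟨hBm, hB0⟩ := Wlk_box (d := d) (i, decide (σ = 1)) M
  obtain ⟨B, hB⟩ : ∃ B : Set (Walk d), B = {w : Walk d | ∀ n < M, (w n).2 = (i, decide (σ = 1))} :=
    ⟨_, rfl⟩
  rw [← hB] at hBm hB0
  have hU : envLaw d ν (⋃ L : ℕ, {ω | 1 ≤ (ω 0).1 ∧ travel ω 0 (ax i σ M) ≤ (L : ℝ≥0∞)}) = 0 :=
    measure_iUnion_null hcon
  have hm2 : MeasurableSet {ws : ℕ → Walk d | ws 0 ∈ B} := (measurable_pi_apply 0) hBm
  have hm1 : MeasurableSet ({0}ᶜ : Set ℕ) := MeasurableSet.of_discrete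
  have hsub : (fun ω : Env d => ω 0) ⁻¹' (({0}ᶜ : Set ℕ) ×ˢ {ws : ℕ → Walk d | ws 0 ∈ B}) ⊆
      ⋃ L : ℕ, {ω | 1 ≤ (ω 0).1 ∧ travel ω 0 (ax i σ M) ≤ (L : ℝ≥0∞)} := by
    rintro ω ⟨h1, h2⟩
    have h1' : 1 ≤ (ω 0).1 := Nat.one_le_iff_ne_zero.2 h1
    have h2' : (ω 0).2 0 ∈ B := h2
    rw [hB] at h2'
    have h3 : pos 0 ((ω 0).2 0) M = ax i σ M := Wlk_pos i hσ M _ h2'
    have h4 : travel ω 0 (ax i σ M) ≤ ENNReal.ofReal (clock ((ω 0).2 0) M) := by
      unfold travel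
      refine (iInf₂_le 0 h1').trans ?_
      unfold hit
      exact iInf₂_le M h3
    obtain ⟨L, hL⟩ := ENNReal.exists_nat_gt (h4.trans_lt ENNReal.ofReal_lt_top).ne
    exact Set.mem_iUnion.2 ⟨L, h1', hL.le⟩
  have h5 := measure_mono_null hsub hU
  rw [(measurePreserving_site ν (0 : Site d)).measure_preimage (hm1.prod hm2).nullMeasurableSet] at h5
  unfold siteLaw at h5
  rw [Measure.prod_prod] at h5
  have h6 : (Measure.infinitePi fun _ : ℕ => walkLaw d) {ws : ℕ → Walk d | ws 0 ∈ B} =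
      walkLaw d B :=
    (measurePreserving_eval_infinitePi (fun _ : ℕ => walkLaw d) 0).measure_preimage
      hBm.nullMeasurableSet
  rw [h6] at h5
  rcases mul_eq_zero.1 h5 with h7 | h7
  · exact hν h7
  · exact hB0 h7

end Frog81
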