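import Pool.Agent.H.MP_53e2a7_pr.hd.RayB
import Pool.Agent.H.MP_53e2a7_pr.hd.Hit
import Pool.Agent.H.MP_53e2a7_pr.he.CutT
import Pool.Agent.H.MP_53e2a7_pr.he.GlueP
import Pool.Agent.H.MP_53e2a7_pr.he.Wlk
import Pool.Agent.H.MP_53e2a7_pr.he.Grow
import Pool.Agent.H.MP_53e2a7_pr.he.DenZ

/-!
# Succ: success has positive probability

PROOF. `grow` with `δ / 2`: `a`, `κd`, `κ₁`; `κ = min (κ₁/2) (1/4)`. Fix `i`, `σ`. `P {1 ≤ (ω 0).1} > 0`; by `bad_tendsto`, `ae_dense` (and good_mono, dense_mono) there is `N` with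
`P* {Dense μ κ N and Good μ κ N at 0} > 0`, and more precisely `P {Good μ κ N at x} > P (not Dense μ κ N)` for every `x` (use the measurable DenseZ with `κ/2` and
`dense_of_denseZ`; `P {Good at x} = P {Good at 0}` by `good_shift`, `measurePreserving_shift`), so `P* {Good at ax i σ M, Dense} > 0` for `M = M₀ (N)`. Let `V` be the set of `ω` with
`T (cut (cone i σ \ {0}) ω) (ax i σ M) y ≤ ofReal (δ/2 * r)` for all `r ≥ R`, `‖y - a r e‖ ≤ κd r`; it contains this event, so `P V > 0` (measurable,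
`measurable_T_cut`). `W = {1 ≤ (ω 0).1 ∧ travel ω 0 (ax i σ M) ≤ L}`, `P W > 0` (`exists_travel_le`). `S` is the (measurable) event of the theorem with `R' ≥ R`, `L + 1 ≤ δ/2 R'`.
`glue {0} ω ω' ∈ S` for `ω ∈ W`, `ω' ∈ V`: `T (cut (cone i σ) ω'') 0 y ≤ travel ω'' 0 (ax i σ M) + T (cut (cone i σ) ω'') (ax i σ M) y` (`0 ∈ cone`; `T_cut_mono`, `T_cut_congr`). So
`P S ≥ (P × P) (W × V) = P W * P V > 0` by `glue_mp`, `Measure.prod_prod`.
-/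

namespace Frog81

open MeasureTheory ProbabilityTheory Filter
open scoped ENNReal NNReal Topology

private theorem Succ_small {Ω : Type*} [MeasurableSpace Ω] (P : Measure Ω)
    [IsProbabilityMeasure P] {A : ℕ → Set Ω} (hm : ∀ n, MeasurableSet (A n)) (ha : Antitone A)
    (h0 : ∀ᵐ ω ∂ P, ∃ n, ω ∉ A n) {ε : ℝ≥0∞} (hε : 0 < ε) : ∃ n, P (A n) ≤ ε := by
  have h1 := tendsto_measure_iInter_atTop (μ := P) (fun n => (hm n).nullMeasurableSet) ha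
    ⟨0, measure_ne_top P _⟩
  have h2 : P (⋂ n, A n) = 0 := by
    rw [ae_iff] at h0
    have h3 : {ω | ¬ ∃ n, ω ∉ A n} = ⋂ n, A n := by
      ext ω
      simp
    rw [← h3]
    exact h0
  rw [h2] at h1
  obtain ⟨n, hn⟩ := (h1.eventually (gt_mem_nhds hε)).exists
  exact ⟨n, hn.le⟩

private theorem Succ_denseZ_mono {d : ℕ} {μ : (Fin d → ℝ) → ℝ} {κ : ℝ} {N N' : ℕ} (h : N ≤ N')
    {ω : Env d} (hg : DenseZ μ κ N ω) : DenseZ μ κ N' ω := by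
  intro x hx
  have h1 : (N : ℝ) ≤ N' := by exact_mod_cast h
  obtain ⟨g, h2, h3⟩ := hg x (h1.trans hx)
  exact ⟨g, good_mono h h2, h3⟩

/-- Near every far site there is a regular site, and a given site is regular, with positive
probability. -/
private theorem Succ_event {d : ℕ} [NeZero d] (ν : Measure ℕ) [IsProbabilityMeasure ν]
    (hν : ν {0}ᶜ ≠ 0) {μ : (Fin d → ℝ) → ℝ} {κ : ℝ} (hκ0 : 0 < κ) (hκ1 : κ < 1)
    (hg : ∀ᵐ ω ∂ envLaw d ν, ∀ x : Site d, 1 ≤ (ω x).1 → ∃ N : ℕ, Good μ κ N ω x)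
    (hp : envLaw d ν {ω | 1 ≤ (ω 0).1} ≠ 0) :
    ∃ N : ℕ, ∀ x : Site d,
      envLaw d ν ({ω | Good μ κ N ω x} ∩ {ω | DenseZ μ κ N ω}) ≠ 0 := by
  have h3 : 0 < envLaw d ν {ω | 1 ≤ (ω 0).1} / 3 := ENNReal.div_pos hp (by simp)
  obtain ⟨N₁, hN₁⟩ := bad_tendsto ν hg h3
  obtain ⟨N₂, hN₂⟩ := Succ_small (envLaw d ν) (A := fun N : ℕ => {ω : Env d | ¬ DenseZ μ κ N ω})
    (fun N => (measurableSet_denseZ μ κ N).compl)
    (fun N N' hN ω hω hc => hω (Succ_denseZ_mono hN hc)) (by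
      filter_upwards [ae_dense ν hκ0 hκ1 hν hg] with ω hω
      obtain ⟨N, hN⟩ := hω
      exact ⟨N, fun hc => hc (denseZ_of_dense hN)⟩) h3
  refine ⟨max N₁ N₂, fun x h0 => ?_⟩
  set N := max N₁ N₂ with hNdef
  have hbad : envLaw d ν {ω | 1 ≤ (ω 0).1 ∧ ¬ Good μ κ N ω 0} ≤
      envLaw d ν {ω | 1 ≤ (ω 0).1} / 3 :=
    le_trans (measure_mono (show {ω : Env d | 1 ≤ (ω 0).1 ∧ ¬ Good μ κ N ω 0} ⊆
      {ω : Env d | 1 ≤ (ω 0).1 ∧ ¬ Good μ κ N₁ ω 0} from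
        fun ω hω => ⟨hω.1, fun hc => hω.2 (good_mono (le_max_left _ _) hc)⟩)) hN₁
  have hden : envLaw d ν {ω | ¬ DenseZ μ κ N ω} ≤ envLaw d ν {ω | 1 ≤ (ω 0).1} / 3 :=
    le_trans (measure_mono (show {ω : Env d | ¬ DenseZ μ κ N ω} ⊆
      {ω : Env d | ¬ DenseZ μ κ N₂ ω} from
        fun ω hω hc => hω (Succ_denseZ_mono (le_max_right _ _) hc))) hN₂
  have h1 : envLaw d ν {ω | 1 ≤ (ω 0).1} ≤
      envLaw d ν {ω | 1 ≤ (ω 0).1 ∧ ¬ Good μ κ N ω 0} + envLaw d ν {ω | Good μ κ N ω 0} := by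
    refine (measure_mono fun ω hω => ?_).trans (measure_union_le _ _)
    by_cases hc : Good μ κ N ω 0
    · exact Or.inr hc
    · exact Or.inl ⟨hω, hc⟩
  have h2 : envLaw d ν {ω | Good μ κ N ω x} ≤
      envLaw d ν ({ω | Good μ κ N ω x} ∩ {ω | DenseZ μ κ N ω}) +
        envLaw d ν {ω | ¬ DenseZ μ κ N ω} := by
    refine (measure_mono fun ω hω => ?_).trans (measure_union_le _ _)
    by_cases hc : DenseZ μ κ N ω
    · exact Or.inl ⟨hω, hc⟩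
    · exact Or.inr hc
  have h4 : envLaw d ν {ω | Good μ κ N ω x} = envLaw d ν {ω | Good μ κ N ω 0} := by
    have h5 := (measurePreserving_shift ν x).measure_preimage
      (measurableSet_good μ κ N (0 : Site d)).nullMeasurableSet
    rw [← h5]
    congr 1
    ext ω
    show Good μ κ N ω x ↔ Good μ κ N (shift x ω) 0
    rw [good_shift, zero_add]
  rw [h0, zero_add] at h2
  have h6 : envLaw d ν {ω | 1 ≤ (ω 0).1} ≤
      envLaw d ν {ω | 1 ≤ (ω 0).1} / 3 + envLaw d ν {ω | 1 ≤ (ω 0).1} / 3 :=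
    h1.trans (add_le_add hbad ((h4.symm.le.trans h2).trans hden))
  have h7 := ENNReal.add_thirds (envLaw d ν {ω : Env d | 1 ≤ (ω 0).1})
  have h8 : envLaw d ν {ω | 1 ≤ (ω 0).1} / 3 + envLaw d ν {ω | 1 ≤ (ω 0).1} / 3 ≠ ⊤ :=
    ENNReal.add_ne_top.2 ⟨ENNReal.div_ne_top (measure_ne_top _ _) (by simp),
      ENNReal.div_ne_top (measure_ne_top _ _) (by simp)⟩
  have h9 := ENNReal.lt_add_right h8 h3.ne'
  rw [h7] at h9
  exact absurd h6 (not_le.2 h9)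

private theorem Succ_glue {d : ℕ} {i : Fin d} {σ : ℤ} {M : ℕ} {ω ω' : Env d} {L : ℕ} {δ r : ℝ}
    (hδ : 0 < δ) (hr : 2 * (L : ℝ) / δ ≤ r) {y : Site d}
    (h1 : travel ω 0 (ax i σ M) ≤ (L : ℝ≥0∞))
    (h2 : T (cut (cone i σ \ {0}) ω') (ax i σ M) y ≤ ENNReal.ofReal (δ / 2 * r)) :
    T (cut (cone i σ) (glue {0} ω ω')) 0 y ≤ ENNReal.ofReal (δ * r) := by
  classical
  have h0 : (0 : Site d) ∈ cone i σ := by
    show ∑ j, |(0 : Site d) j| ≤ 2 * (σ * (0 : Site d) i)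
    simp
  have h3 : cut (cone i σ) (glue {0} ω ω') 0 = ω 0 := by
    unfold cut glue
    rw [if_pos h0, if_pos (Set.mem_singleton _)]
  have h4 : T (cut (cone i σ) (glue {0} ω ω')) 0 (ax i σ M) ≤ (L : ℝ≥0∞) := by
    refine (T_le_travel _ _ _).trans (le_trans (le_of_eq ?_) h1)
    unfold travel
    rw [h3]
  have h5 : T (cut (cone i σ) (glue {0} ω ω')) (ax i σ M) y ≤ ENNReal.ofReal (δ / 2 * r) := by
    refine (T_cut_mono (show cone i σ \ {0} ⊆ cone i σ from Set.sdiff_subset) _ _ _).trans ?_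
    rw [T_cut_congr (ω' := ω') fun x hx => ?_]
    · exact h2
    · unfold glue
      rw [if_neg hx.2]
  have h6 : (L : ℝ≥0∞) ≤ ENNReal.ofReal (δ / 2 * r) := by
    rw [← ENNReal.ofReal_natCast]
    refine ENNReal.ofReal_le_ofReal ?_
    rw [div_le_iff₀ hδ] at hr
    linarith
  have hL : 0 ≤ r := le_trans (by positivity) hr
  refine (T_triangle _ _ (ax i σ M) _).trans ((add_le_add (h4.trans h6) h5).trans (le_of_eq ?_))
  rw [← ENNReal.ofReal_add (by positivity) (by positivity)]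
  congr 1
  ring

theorem success {d : ℕ} [NeZero d] (ν : Measure ℕ) [IsProbabilityMeasure ν] (hν : ν {0}ᶜ ≠ 0)
    {μ : (Fin d → ℝ) → ℝ} {c C : ℝ} (hμ : IsGauge μ c C)
    (hg : ∀ κ : ℝ, 0 < κ → κ < 1 → ∀ᵐ ω ∂ envLaw d ν, ∀ x : Site d, 1 ≤ (ω x).1 →
      ∃ N : ℕ, Good μ κ N ω x) {δ : ℝ} (hδ : 0 < δ) :
    ∃ a κd : ℝ, 0 < a ∧ 0 < κd ∧ (d : ℝ) * κd ≤ a ∧ ∀ (i : Fin d) (σ : ℤ), σ = 1 ∨ σ = -1 →
      ∃ (R : ℝ) (S : Set (Env d)), MeasurableSet S ∧ envLaw d ν S ≠ 0 ∧ ∀ ω ∈ S, 1 ≤ (ω 0).1 ∧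
        ∀ r : ℕ, R ≤ r → ∀ y : Site d, ‖rv y - (a * r) • rv (ax i σ 1)‖ ≤ κd * r →
          T (cut (cone i σ) ω) 0 y ≤ ENNReal.ofReal (δ * r) := by
  obtain ⟨a, κd, κ₁, ha, hκd, hdκ, hκ₁, G⟩ := grow hμ (half_pos hδ)
  refine ⟨a, κd, ha, hκd, hdκ, fun i σ hσ => ?_⟩
  obtain ⟨κ, hκ0, hκ1, hκκ⟩ : ∃ κ : ℝ, 0 < κ ∧ κ < 1 ∧ 2 * κ ≤ κ₁ := by
    refine ⟨min (κ₁ / 2) (1 / 4), lt_min (by linarith) (by norm_num),
      (min_le_right _ _).trans_lt (by norm_num), ?_⟩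
    have := min_le_left (κ₁ / 2) (1 / 4 : ℝ)
    linarith
  have hp : envLaw d ν {ω | 1 ≤ (ω 0).1} ≠ 0 := by
    obtain ⟨L, hL⟩ := exists_travel_le ν hν i hσ 0
    intro h0
    exact hL (measure_mono_null (fun ω hω => hω.1) h0)
  obtain ⟨N, hN⟩ := Succ_event ν hν hκ0 hκ1 (hg κ hκ0 hκ1) hp
  obtain ⟨N', hNN', hD⟩ := dense_of_denseZ hμ hκ0 N
  obtain ⟨M₀, hM⟩ := G (2 * κ) (by positivity) hκκ N'
  obtain ⟨R, hR⟩ := hM M₀ le_rfl
  obtain ⟨L, hL⟩ := exists_travel_le ν hν i hσ M₀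
  refine ⟨max R (2 * (L : ℝ) / δ), {ω | 1 ≤ (ω 0).1 ∧ ∀ r : ℕ, max R (2 * (L : ℝ) / δ) ≤ r →
    ∀ y : Site d, ‖rv y - (a * r) • rv (ax i σ 1)‖ ≤ κd * r →
      T (cut (cone i σ) ω) 0 y ≤ ENNReal.ofReal (δ * r)}, ?_, ?_, fun ω hω => hω⟩
  · have e1 : {ω : Env d | 1 ≤ (ω 0).1 ∧ ∀ r : ℕ, max R (2 * (L : ℝ) / δ) ≤ r →
        ∀ y : Site d, ‖rv y - (a * r) • rv (ax i σ 1)‖ ≤ κd * r →
          T (cut (cone i σ) ω) 0 y ≤ ENNReal.ofReal (δ * r)} =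
        {ω : Env d | 1 ≤ (ω 0).1} ∩ ⋂ r : ℕ, ⋂ _ : max R (2 * (L : ℝ) / δ) ≤ r, ⋂ y : Site d,
          ⋂ _ : ‖rv y - (a * r) • rv (ax i σ 1)‖ ≤ κd * r,
            {ω : Env d | T (cut (cone i σ) ω) 0 y ≤ ENNReal.ofReal (δ * r)} := by
      ext ω
      simp only [Set.mem_inter_iff, Set.mem_iInter, Set.mem_setOf_eq]
    rw [e1]
    refine MeasurableSet.inter ?_ (MeasurableSet.iInter fun r => MeasurableSet.iInter fun _ =>
      MeasurableSet.iInter fun y => MeasurableSet.iInter fun _ =>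
        measurableSet_le (measurable_T_cut _ _ _) measurable_const)
    have h2 : Measurable fun ω : Env d => (ω 0).1 := measurable_fst.comp (measurable_pi_apply 0)
    exact h2 MeasurableSet.of_discrete
  · intro h0
    have hmp := glue_mp ν ({0} : Set (Site d))
    have hsub : {ω : Env d | 1 ≤ (ω 0).1 ∧ travel ω 0 (ax i σ M₀) ≤ (L : ℝ≥0∞)} ×ˢ
        ({ω : Env d | Good μ κ N ω (ax i σ M₀)} ∩ {ω : Env d | DenseZ μ κ N ω}) ⊆
        (fun p : Env d × Env d => glue {0} p.1 p.2) ⁻¹'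
          {ω | 1 ≤ (ω 0).1 ∧ ∀ r : ℕ, max R (2 * (L : ℝ) / δ) ≤ r →
            ∀ y : Site d, ‖rv y - (a * r) • rv (ax i σ 1)‖ ≤ κd * r →
              T (cut (cone i σ) ω) 0 y ≤ ENNReal.ofReal (δ * r)} := by
      rintro ⟨ω, ω'⟩ ⟨⟨h1, h2⟩, h3, h4⟩
      refine ⟨?_, fun r hr y hy => ?_⟩
      · have h5 : glue {0} ω ω' 0 = ω 0 := by
          unfold glue
          rw [if_pos (Set.mem_singleton _)]
        show 1 ≤ (glue {0} ω ω' 0).1
        rw [h5]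
        exact h1
      · exact Succ_glue hδ ((le_max_right _ _).trans hr) h2
          (hR ω' i σ hσ (hD ω' h4) (good_kappa hμ (by linarith) (good_mono hNN' h3)) r
            ((le_max_left _ _).trans hr) y hy)
    have h5 := hmp.quasiMeasurePreserving.preimage_null h0
    have h6 := measure_mono_null hsub h5
    rw [Measure.prod_prod, mul_eq_zero] at h6
    rcases h6 with h6 | h6
    · exact hL h6
    · exact hN _ h6

end Frog81
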