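import Pool.Agent.H.MP_53e2a7_pr.he.Defs

/-!
# Supp: a supporting cone

PROOF. Hahn-Banach (`exists_extension_of_le_sublinear` on the line spanned by `rv x`, `f (r • rv x) = r * μ (rv x)`; for `r < 0`: `0 ≤ μ (r x) + μ (-r x)`; or work with
`exists_extension_of_le_sublinear` directly): a linear `ℓ ≤ μ` with `ℓ (rv x) = μ (rv x)`. Let `i` maximize `|ℓ e_i|`, `σ` the sign of `ℓ e_i`. For `y` in the cone
`ℓ (rv y) ≥ |ℓ e_i| (σ y_i - ∑_{j ≠ i} |y_j|) ≥ 0` (`∑ j, |y j| ≤ 2 σ y_i` gives `σ y_i ≥ 0`, `|y_i| = σ y_i`). So `μ (rv (x+y)) ≥ ℓ (rv x) + ℓ (rv y) ≥ μ (rv x)`.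
-/

namespace Frog81

open MeasureTheory ProbabilityTheory Filter
open scoped ENNReal NNReal Topology

private theorem Supp_ext {d : ℕ} {μ : (Fin d → ℝ) → ℝ} {c C : ℝ} (hμ : IsGauge μ c C)
    (hnn : ∀ z, 0 ≤ μ z) {u : Fin d → ℝ} (hu : u ≠ 0) :
    ∃ ℓ : (Fin d → ℝ) →ₗ[ℝ] ℝ, ℓ u = μ u ∧ ∀ z, ℓ z ≤ μ z := by
  obtain ⟨g, hg1, hg2⟩ := exists_extension_of_le_sublinear
    (LinearPMap.mkSpanSingleton u (μ u) hu) μ (fun r hr z => hμ.smul r z hr.le) hμ.add (by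
      rintro ⟨z, hz⟩
      obtain ⟨r, rfl⟩ := Submodule.mem_span_singleton.1 hz
      have h1 : (LinearPMap.mkSpanSingleton u (μ u) hu) ⟨r • u, hz⟩ = r * μ u :=
        LinearPMap.mkSpanSingleton'_apply u (μ u) _ r hz
      rw [h1]
      show r * μ u ≤ μ (r • u)
      rcases le_total 0 r with hr | hr
      · rw [hμ.smul r u hr]
      · exact (mul_nonpos_of_nonpos_of_nonneg hr (hnn u)).trans (hnn _))
  refine ⟨g, ?_, hg2⟩
  have h2 := hg1 ⟨u, Submodule.mem_span_singleton_self u⟩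
  rw [LinearPMap.mkSpanSingleton_apply ℝ ℝ hu (μ u)] at h2
  exact h2

theorem supp_cone {d : ℕ} [NeZero d] {μ : (Fin d → ℝ) → ℝ} {c C : ℝ} (hμ : IsGauge μ c C)
    (x : Site d) : ∃ (i : Fin d) (σ : ℤ), (σ = 1 ∨ σ = -1) ∧
      ∀ y ∈ cone i σ, μ (rv x) ≤ μ (rv (x + y)) := by
  classical
  have hnn : ∀ z, 0 ≤ μ z := fun z =>
    (mul_nonneg hμ.c_pos.le (norm_nonneg z)).trans (hμ.low z)
  by_cases hx : rv x = 0
  · refine ⟨0, 1, Or.inl rfl, fun y _ => ?_⟩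
    have h0 : μ (rv x) ≤ 0 := by
      have h1 := hμ.up (rv x)
      rwa [hx, norm_zero, mul_zero, ← hx] at h1
    exact h0.trans (hnn _)
  obtain ⟨ℓ, hℓ1, hℓ2⟩ := Supp_ext hμ hnn hx
  obtain ⟨a, ha⟩ : ∃ a : Fin d → ℝ, a = fun j => ℓ fun k => if j = k then 1 else 0 := ⟨_, rfl⟩
  have hsum : ∀ y : Site d, ℓ (rv y) = ∑ j, (y j : ℝ) * a j := by
    intro y
    rw [LinearMap.pi_apply_eq_sum_univ ℓ (rv y)]
    refine Finset.sum_congr rfl fun j _ => ?_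
    rw [ha, smul_eq_mul]
    rfl
  obtain ⟨i, hi⟩ := Finite.exists_max fun j => |a j|
  obtain ⟨σ, hσ, hσa⟩ : ∃ σ : ℤ, (σ = 1 ∨ σ = -1) ∧ (σ : ℝ) * a i = |a i| := by
    rcases le_total 0 (a i) with h1 | h1
    · exact ⟨1, Or.inl rfl, by rw [abs_of_nonneg h1]; push_cast; ring⟩
    · exact ⟨-1, Or.inr rfl, by rw [abs_of_nonpos h1]; push_cast; ring⟩
  refine ⟨i, σ, hσ, fun y hy => ?_⟩
  have hσ2 : (σ : ℝ) * σ = 1 := by
    rcases hσ with h1 | h1 <;> rw [h1] <;> norm_num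
  have hy1 : ∑ j, |(y j : ℝ)| ≤ 2 * ((σ : ℝ) * y i) := by
    have h1 : ∑ j, |y j| ≤ 2 * (σ * y i) := hy
    have h2 : ((∑ j, |y j| : ℤ) : ℝ) ≤ ((2 * (σ * y i) : ℤ) : ℝ) := by exact_mod_cast h1
    push_cast at h2
    exact h2
  have hyi0 : 0 ≤ (σ : ℝ) * y i := by
    have h1 : 0 ≤ ∑ j, |(y j : ℝ)| := Finset.sum_nonneg fun j _ => abs_nonneg _
    linarith
  have hyi : |(y i : ℝ)| = (σ : ℝ) * y i := by
    have h1 : |(σ : ℝ)| = 1 := by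
      rcases hσ with h1 | h1 <;> rw [h1] <;> norm_num
    rw [← abs_of_nonneg hyi0, abs_mul, h1, one_mul]
  have hyai : (y i : ℝ) * a i = (σ : ℝ) * y i * |a i| := by
    rw [← hσa]
    calc (y i : ℝ) * a i = ((σ : ℝ) * σ) * (y i * a i) := by rw [hσ2, one_mul]
      _ = _ := by ring
  have hℓy : 0 ≤ ℓ (rv y) := by
    rw [hsum]
    have h1 : ∀ j ∈ (Finset.univ : Finset (Fin d)), 0 ≤ (y j : ℝ) * a j + |(y j : ℝ)| * |a i| := by
      intro j _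
      have h2 : |(y j : ℝ) * a j| ≤ |(y j : ℝ)| * |a i| := by
        rw [abs_mul]
        exact mul_le_mul_of_nonneg_left (hi j) (abs_nonneg _)
      have h3 := neg_abs_le ((y j : ℝ) * a j)
      linarith
    have h4 := Finset.single_le_sum h1 (Finset.mem_univ i)
    rw [Finset.sum_add_distrib, ← Finset.sum_mul, hyai, hyi] at h4
    have h5 : (∑ j, |(y j : ℝ)|) * |a i| ≤ 2 * ((σ : ℝ) * y i) * |a i| :=
      mul_le_mul_of_nonneg_right hy1 (abs_nonneg _)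
    linarith
  have hadd : rv (x + y) = rv x + rv y := by
    funext j
    simp [rv]
  calc μ (rv x) = ℓ (rv x) := hℓ1.symm
    _ ≤ ℓ (rv x) + ℓ (rv y) := by linarith
    _ = ℓ (rv (x + y)) := by rw [hadd, map_add]
    _ ≤ μ (rv (x + y)) := hℓ2 _

end Frog81
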