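import Pool.Agent.H.MP_53e2a7_pr.hd.Take
import Pool.Agent.H.MP_53e2a7_pr.hd.Two
import Pool.Agent.H.MP_53e2a7_pr.he.ChK

/-!
# Win: a successful record wins

PROOF. `κ₀` at most the one of `takeover` (with `ρ₀`), `1/2`, `(1 - β (ρ₁ + δ)) / 2` (`ρ₁ + δ ≤ ρ₀`, so `β (ρ₁+δ) < 1`) and `κd / (4 (2 ρ₁ / c + a + 1))`. The origin is occupied (Good) and
`le_time_one` (h81/Comp) gives `T ω 0 x ≤ t x ≤ ρ₁ r`, so by Good at `0`: `μ (rv x) ≤ 2 (ρ₁ r + N)`, `‖rv x‖ ≤ (2 ρ₁ r + 2 N) / c`. Let `X = rv x + (a r) e`, `e = rv (ax i σ 1)`,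
`‖X‖ ≤ (2 ρ₁ r + 2 N)/c + a r`, and `‖X‖ ≥ N`: `ax i σ ⌊a r⌋ ∈ cone i σ`, so `μ (rv (x + ax i σ ⌊a r⌋)) ≥ r`, `‖rv x + ⌊a r⌋ e‖ ≥ r / C`, `‖X‖ ≥ r / C - 1`. Dense: a Good site `g` with `‖rv g - X‖ ≤ κ ‖X‖ ≤ κd r`. `y = g - x`: in the cone as `d κd ≤ a`; so `μ (rv g) ≥ μ (rv x) ≥ r` and
`T (cut K ω) x g ≤ δ r` with `K = {w | w - x ∈ cone i σ}`, `x ∈ K`. `chain_cut`: if there is a type two `w` in `K` or `w = g` with `t w ≤ (ρ₁ + δ) r + 1`: `μ (rv w) ≥ r` and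
(`two_slow`, Slow) `(1-κ) μ (rv w) - N ≤ β ((ρ₁+δ) r + 1)`, impossible for large `r` (`w = z`: `μ (rv z) ≤ C N < r`). So `θ g = one`, `t g ≤ (ρ₁ + δ) r + 1 ≤ ρ₀ r ≤ ρ₀ μ (rv g)` as
`δ ≤ (ρ₀ - ρ₁)/2`; `‖rv g‖ ≥ r / C` is large: `takeover`.
-/

namespace Frog81

open MeasureTheory ProbabilityTheory Filter
open scoped ENNReal NNReal Topology

private theorem Win_rv_add {d : ℕ} (x y : Site d) : rv (x + y) = rv x + rv y := by
  funext j
  simp [rv]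

private theorem Win_rv_sub {d : ℕ} (x y : Site d) : rv (x - y) = rv x - rv y := by
  funext j
  simp [rv]

private theorem Win_rv_zero {d : ℕ} : rv (0 : Site d) = 0 := by
  funext j
  simp [rv]

private theorem Win_rv_ax {d : ℕ} (i : Fin d) (σ : ℤ) (m : ℕ) (j : Fin d) :
    rv (ax i σ m) j = if j = i then (σ : ℝ) * m else 0 := by
  unfold rv ax
  by_cases h : j = i
  · subst h
    rw [Pi.single_eq_same, if_pos rfl]
    push_cast
    rfl
  · rw [Pi.single_eq_of_ne h, if_neg h, Int.cast_zero]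

private theorem Win_ax_smul {d : ℕ} (i : Fin d) (σ : ℤ) (m : ℕ) :
    rv (ax i σ m) = (m : ℝ) • rv (ax i σ 1) := by
  funext j
  rw [Pi.smul_apply, smul_eq_mul, Win_rv_ax, Win_rv_ax]
  split_ifs
  · push_cast
    ring
  · ring

private theorem Win_abs {σ : ℤ} (hσ : σ = 1 ∨ σ = -1) : |(σ : ℝ)| = 1 := by
  rcases hσ with h | h <;> rw [h] <;> norm_num

private theorem Win_sq {σ : ℤ} (hσ : σ = 1 ∨ σ = -1) : (σ : ℝ) * σ = 1 := by
  rcases hσ with h | h <;> rw [h] <;> norm_num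

private theorem Win_norm_e {d : ℕ} (i : Fin d) {σ : ℤ} (hσ : σ = 1 ∨ σ = -1) :
    ‖rv (ax i σ 1)‖ ≤ 1 := by
  rw [pi_norm_le_iff_of_nonneg zero_le_one]
  intro j
  rw [Win_rv_ax, Real.norm_eq_abs]
  split_ifs
  · rw [abs_mul, Win_abs hσ]
    norm_num
  · norm_num

private theorem Win_cone_iff {d : ℕ} (i : Fin d) (σ : ℤ) (y : Site d) :
    y ∈ cone i σ ↔ ∑ j, |rv y j| ≤ 2 * ((σ : ℝ) * rv y i) := by
  show (∑ j, |y j| ≤ 2 * (σ * y i)) ↔ _
  unfold rv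
  constructor
  · intro h
    exact_mod_cast h
  · intro h
    exact_mod_cast h

private theorem Win_ax_cone {d : ℕ} (i : Fin d) {σ : ℤ} (hσ : σ = 1 ∨ σ = -1) (m : ℕ) :
    ax i σ m ∈ cone i σ := by
  rw [Win_cone_iff, Finset.sum_eq_single i]
  · rw [Win_rv_ax, if_pos rfl, abs_mul, Win_abs hσ, ← mul_assoc (σ : ℝ) (σ : ℝ) (m : ℝ), Win_sq hσ,
      Nat.abs_cast]
    have : (0 : ℝ) ≤ m := Nat.cast_nonneg m
    linarith
  · intro j _ hj
    rw [Win_rv_ax, if_neg hj, abs_zero]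
  · intro h
    exact absurd (Finset.mem_univ i) h

private theorem Win_zero_cone {d : ℕ} (i : Fin d) (σ : ℤ) : (0 : Site d) ∈ cone i σ := by
  rw [Win_cone_iff, Win_rv_zero]
  simp

private theorem Win_near_cone {d : ℕ} (i : Fin d) {σ : ℤ} (hσ : σ = 1 ∨ σ = -1) {A K : ℝ}
    (y : Site d) (hy : ‖rv y - A • rv (ax i σ 1)‖ ≤ K) (hK : (d : ℝ) * K ≤ A) (hK0 : 0 ≤ K) :
    y ∈ cone i σ := by
  rw [Win_cone_iff]
  have hd1 : (1 : ℝ) ≤ d := by
    have : 0 < d := Fin.pos i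
    exact_mod_cast this
  have h1 : ∀ j, |rv y j - A * rv (ax i σ 1) j| ≤ K := by
    intro j
    have h2 := (norm_le_pi_norm (rv y - A • rv (ax i σ 1)) j).trans hy
    rw [Real.norm_eq_abs] at h2
    exact h2
  have hi := h1 i
  rw [Win_rv_ax, if_pos rfl, Nat.cast_one, mul_one] at hi
  have h3 : |(σ : ℝ) * rv y i - A| ≤ K := by
    have h4 : (σ : ℝ) * rv y i - A = σ * (rv y i - A * σ) := by
      have := Win_sq hσ
      linear_combination A * this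
    rw [h4, abs_mul, Win_abs hσ, one_mul]
    exact hi
  have h5 := abs_le.1 h3
  have h6 : |rv y i| = (σ : ℝ) * rv y i := by
    have h7 : 0 ≤ (σ : ℝ) * rv y i := by nlinarith
    rw [← abs_of_nonneg h7, abs_mul, Win_abs hσ, one_mul]
  rw [← Finset.add_sum_erase _ _ (Finset.mem_univ i), h6]
  have h8 : ∑ j ∈ Finset.univ.erase i, |rv y j| ≤ ((d : ℝ) - 1) * K := by
    have h9 : ∀ j ∈ Finset.univ.erase i, |rv y j| ≤ K := by
      intro j hj
      have h10 := h1 j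
      rw [Win_rv_ax, if_neg (Finset.ne_of_mem_erase hj), mul_zero, sub_zero] at h10
      exact h10
    refine (Finset.sum_le_sum h9).trans ?_
    rw [Finset.sum_const, Finset.card_erase_of_mem (Finset.mem_univ i), Finset.card_univ,
      Fintype.card_fin, nsmul_eq_mul, Nat.cast_sub (Fin.pos i), Nat.cast_one]
  nlinarith

theorem win {d : ℕ} [NeZero d] (hd : 2 ≤ d) {μ : (Fin d → ℝ) → ℝ} {c C β ρ₀ ρ₁ a κd δ : ℝ}
    (hμ : IsGauge μ c C) (hβ0 : 0 < β) (hβ1 : β < 1) (hρ1 : 1 < ρ₁) (hρ : ρ₁ < ρ₀)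
    (hρ0 : β * ρ₀ < 1) (ha : 0 < a) (hκd : 0 < κd) (hda : (d : ℝ) * κd ≤ a) (hδ : 0 < δ)
    (hδ1 : δ ≤ (ρ₀ - ρ₁) / 2) : ∃ κ₀ : ℝ, 0 < κ₀ ∧ ∀ κ : ℝ, 0 < κ → κ < κ₀ → ∀ N : ℕ, ∃ R : ℝ,
      ∀ (ω : Env d) (z : Site d) (t : Site d → ℝ≥0∞) (θ : Site d → Kind), Regular ω →
        IsTwoType β z ω t θ → Slow μ κ N ω z → Dense μ κ N ω → Good μ κ N ω 0 →
          ∀ (r : ℕ) (x : Site d) (i : Fin d) (σ : ℤ), σ = 1 ∨ σ = -1 → R ≤ r → θ x = Kind.one →
            (r : ℝ) ≤ μ (rv x) → t x ≤ ENNReal.ofReal (ρ₁ * r) →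
              (∀ y ∈ cone i σ, μ (rv x) ≤ μ (rv (x + y))) →
                (∀ y : Site d, ‖rv y - (a * r) • rv (ax i σ 1)‖ ≤ κd * r →
                  T (cut {w | w - x ∈ cone i σ} ω) x (x + y) ≤ ENNReal.ofReal (δ * r)) →
                    {y | θ y = Kind.two}.Finite := by
  have hc := hμ.c_pos
  have hC := hμ.C_pos
  obtain ⟨κt, hκt, htake⟩ := takeover hd hμ hβ0 hβ1 (hρ1.trans hρ) hρ0
  obtain ⟨ε, hε, hε0⟩ : ∃ ε : ℝ, ε = 1 - β * (ρ₁ + δ) ∧ 0 < ε := by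
    refine ⟨_, rfl, ?_⟩
    have h1 : β * (ρ₁ + δ) ≤ β * ρ₀ := mul_le_mul_of_nonneg_left (by linarith) hβ0.le
    linarith
  obtain ⟨Q, hQ, hQ0⟩ : ∃ Q : ℝ, Q = 2 * ρ₁ / c + a + 1 ∧ 0 < Q := by
    refine ⟨_, rfl, ?_⟩
    have : 0 < 2 * ρ₁ / c := div_pos (by linarith) hc
    linarith
  refine ⟨min (min κt (1 / 2)) (min (ε / 2) (κd / Q)), lt_min (lt_min hκt (by norm_num))
    (lt_min (by linarith) (div_pos hκd hQ0)), ?_⟩
  intro κ hκ0 hκ N
  have k1 : κ < κt := hκ.trans_le ((min_le_left _ _).trans (min_le_left _ _))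
  have k2 : κ ≤ 1 / 2 := hκ.le.trans ((min_le_left _ _).trans (min_le_right _ _))
  have k3 : κ ≤ ε / 2 := hκ.le.trans ((min_le_right _ _).trans (min_le_left _ _))
  have k4 : κ * Q ≤ κd := by
    rw [← le_div_iff₀ hQ0]
    exact hκ.le.trans ((min_le_right _ _).trans (min_le_right _ _))
  obtain ⟨Rt, hRt⟩ := htake κ hκ0 k1 N N
  have hN : (0 : ℝ) ≤ N := Nat.cast_nonneg N
  refine ⟨C * (N + 1) + 2 * N / c + (2 * (N + 1) / ε + 1) + 2 / (ρ₀ - ρ₁) + C * |Rt|, ?_⟩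
  intro ω z t θ hreg htt hslow hdense hgood r x i σ hσ hR hθx hrx htx hcone hT
  have p1 : 0 ≤ C * ((N : ℝ) + 1) := by positivity
  have p2 : 0 ≤ 2 * (N : ℝ) / c := by positivity
  have p3 : 0 ≤ 2 * ((N : ℝ) + 1) / ε := by positivity
  have p4 : 0 ≤ 2 / (ρ₀ - ρ₁) := div_nonneg (by norm_num) (by linarith)
  have p5 : 0 ≤ C * |Rt| := by positivity
  have q1 : C * ((N : ℝ) + 1) ≤ r := by linarith
  have q2 : 2 * (N : ℝ) / c ≤ r := by linarith
  have q3 : 2 * ((N : ℝ) + 1) / ε < r := by linarith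
  have q4 : 2 / (ρ₀ - ρ₁) ≤ r := by linarith
  have q5 : C * |Rt| ≤ r := by linarith
  have q3' : 2 * ((N : ℝ) + 1) < r * ε := by rwa [div_lt_iff₀ hε0] at q3
  have q4' : 2 ≤ r * (ρ₀ - ρ₁) := by rwa [div_le_iff₀ (by linarith)] at q4
  have hr0 : (0 : ℝ) ≤ r := Nat.cast_nonneg r
  have hrC : C * ((N : ℝ) + 1) ≤ r := q1
  -- the norm of x
  have hx1 : μ (rv x) ≤ 2 * (ρ₁ * r + N) := by
    have h1 := le_time_one hreg hβ0 hβ1.le hgood.1 htt x hθx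
    have h2 := ((hgood.2 x).2.trans h1).trans htx
    rw [Win_rv_zero, sub_zero] at h2
    have h3 := (ENNReal.ofReal_le_ofReal_iff (by positivity)).1 h2
    have h4 : 0 ≤ μ (rv x) := hr0.trans hrx
    nlinarith
  have hx2 : ‖rv x‖ ≤ (2 * ρ₁ / c) * r + 2 * N / c := by
    have h1 := (hμ.low (rv x)).trans hx1
    have h2 : (2 * ρ₁ / c) * r + 2 * N / c = 2 * (ρ₁ * r + N) / c := by
      field_simp
    rw [h2, le_div_iff₀ hc]
    linarith
  obtain ⟨X, hX⟩ : ∃ X, X = rv x + (a * r) • rv (ax i σ 1) := ⟨_, rfl⟩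
  have har : 0 ≤ a * r := by positivity
  have hX1 : ‖X‖ ≤ Q * r := by
    have h1 : ‖(a * r) • rv (ax i σ 1)‖ ≤ a * r := by
      rw [norm_smul, Real.norm_eq_abs, abs_of_nonneg har]
      exact mul_le_of_le_one_right har (Win_norm_e i hσ)
    have h2 := norm_add_le (rv x) ((a * r) • rv (ax i σ 1))
    rw [← hX] at h2
    rw [hQ]
    have e : (2 * ρ₁ / c + a + 1) * r = (2 * ρ₁ / c) * r + a * r + r := by ring
    rw [e]
    linarith
  have hX2 : (N : ℝ) ≤ ‖X‖ := by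
    have h1 := hcone _ (Win_ax_cone i hσ ⌊a * r⌋₊)
    rw [Win_rv_add, Win_ax_smul] at h1
    have h2 := hμ.up (rv x + (⌊a * r⌋₊ : ℝ) • rv (ax i σ 1))
    have h3 : C * ((N : ℝ) + 1) ≤ C * ‖rv x + (⌊a * r⌋₊ : ℝ) • rv (ax i σ 1)‖ := by linarith
    have h4 := le_of_mul_le_mul_left h3 hC
    have h5 : rv x + (⌊a * r⌋₊ : ℝ) • rv (ax i σ 1) =
        X - (a * r - ⌊a * r⌋₊) • rv (ax i σ 1) := by
      rw [hX]
      module
    have h6 : ‖(a * r - ⌊a * r⌋₊) • rv (ax i σ 1)‖ ≤ 1 := by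
      rw [norm_smul, Real.norm_eq_abs]
      have h7 := Nat.floor_le har
      have h8 := Nat.lt_floor_add_one (a * (r : ℝ))
      have h9 : |a * (r : ℝ) - ⌊a * (r : ℝ)⌋₊| ≤ 1 := by
        rw [abs_le]
        constructor <;> linarith
      exact mul_le_one₀ h9 (norm_nonneg _) (Win_norm_e i hσ)
    rw [h5] at h4
    have h7 := norm_sub_le X ((a * r - ⌊a * r⌋₊) • rv (ax i σ 1))
    linarith
  obtain ⟨g, hg, hgX⟩ := hdense X hX2
  have hgX' : ‖rv g - X‖ ≤ κd * r := by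
    refine hgX.trans ?_
    calc κ * ‖X‖ ≤ κ * (Q * r) := mul_le_mul_of_nonneg_left hX1 hκ0.le
      _ = κ * Q * r := by ring
      _ ≤ κd * r := mul_le_mul_of_nonneg_right k4 hr0
  have hy : ‖rv (g - x) - (a * r) • rv (ax i σ 1)‖ ≤ κd * r := by
    have e : rv (g - x) - (a * r) • rv (ax i σ 1) = rv g - X := by
      rw [Win_rv_sub, hX]
      abel
    rw [e]
    exact hgX'
  have hyc : g - x ∈ cone i σ := by
    refine Win_near_cone i hσ (g - x) hy ?_ (by positivity)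
    have := mul_le_mul_of_nonneg_right hda hr0
    linarith
  have hTg := hT (g - x) hy
  rw [add_sub_cancel] at hTg
  have hlow : ∀ w : Site d, w - x ∈ cone i σ → (r : ℝ) ≤ μ (rv w) := by
    intro w hw
    have h1 := hcone _ hw
    rw [add_sub_cancel] at h1
    exact hrx.trans h1
  have hgr := hlow g hyc
  have hxK : x ∈ {w : Site d | w - x ∈ cone i σ} := by
    show x - x ∈ cone i σ
    rw [sub_self]
    exact Win_zero_cone i σ
  have hsum : t x + (T (cut {w | w - x ∈ cone i σ} ω) x g + 1) ≤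
      ENNReal.ofReal ((ρ₁ + δ) * r + 1) := by
    have e : (ρ₁ + δ) * (r : ℝ) + 1 = ρ₁ * r + (δ * r + 1) := by ring
    rw [e, ENNReal.ofReal_add (by positivity) (by positivity),
      ENNReal.ofReal_add (by positivity) zero_le_one, ENNReal.ofReal_one]
    exact add_le_add htx (add_le_add hTg le_rfl)
  have hT' : T (cut {w | w - x ∈ cone i σ} ω) x g ≠ ⊤ :=
    (hTg.trans_lt ENNReal.ofReal_lt_top).ne
  rcases chain_cut htt hxK hθx hT' with ⟨h1, h2⟩ | ⟨w, hw1, hw2, hw3⟩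
  · refine hRt ω z t θ hreg htt hslow hdense g hg ?_ h1 ?_
    · have h3 := hμ.up (rv g)
      have h4 : C * |Rt| ≤ C * ‖rv g‖ := by linarith
      exact (le_abs_self Rt).trans (le_of_mul_le_mul_left h4 hC)
    · refine (h2.trans hsum).trans (ENNReal.ofReal_le_ofReal ?_)
      have h3 : ρ₀ * (r : ℝ) ≤ ρ₀ * μ (rv g) := mul_le_mul_of_nonneg_left hgr (by linarith)
      have h4 : δ * (r : ℝ) ≤ (ρ₀ - ρ₁) / 2 * r := mul_le_mul_of_nonneg_right hδ1 hr0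
      nlinarith
  · exfalso
    have hwr : (r : ℝ) ≤ μ (rv w) := by
      rcases hw1 with hw1 | hw1
      · exact hlow w hw1
      · rw [hw1]
        exact hgr
    by_cases hwz : w = z
    · rw [hwz] at hwr
      have h1 := hμ.up (rv z)
      have h2 := mul_le_mul_of_nonneg_left hslow.1 hC.le
      nlinarith
    · have h1 := two_slow hreg hβ0 hβ1.le htt w hw2 hwz
      have h2 := (h1.trans hw3).trans hsum
      have hβne : ENNReal.ofReal β ≠ 0 := by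
        rw [Ne, ENNReal.ofReal_eq_zero, not_le]
        exact hβ0
      rw [ENNReal.div_le_iff hβne ENNReal.ofReal_ne_top,
        ← ENNReal.ofReal_mul (by positivity)] at h2
      have h3 := (hslow.2 w hwz).trans h2
      have h4 := (ENNReal.ofReal_le_ofReal_iff (by positivity)).1 h3
      have h5 : (1 - κ) * (r : ℝ) ≤ (1 - κ) * μ (rv w) :=
        mul_le_mul_of_nonneg_left hwr (by linarith)
      have h6 : κ * (r : ℝ) ≤ ε / 2 * r := mul_le_mul_of_nonneg_right k3 hr0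
      have h7 : ((ρ₁ + δ) * (r : ℝ) + 1) * β = (1 - ε) * r + β := by
        rw [hε]
        ring
      rw [h7] at h4
      nlinarith

end Frog81
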