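import Pool.Agent.H.MP_53e2a7_pr.he.PairC

/-!
# PairD: combination

PROOF. `exists_gauge`: `μ`, `c`, `C`. `β₁ = (β + β')/2`; `1/β' < ρ₂ < ρ₁ < ρ₀ < 1/β₁` (so `β ρ₀ < 1`, `β₁ ρ₁ < 1`, `1 < ρ₁`); `δ = (ρ₀ - ρ₁)/2`; `success`: `a`, `κd` and `R_{iσ}`, `S_{iσ}`; `win`: `κ₀`; `κ` below `κ₀`, `1/2`,
with `(1+κ)/β' ≤ ρ₂`, `β₁ ρ₁ < 1 - κ`. Suppose `P G ≠ 0`. Almost surely: Regular, `ae_finite`, all occupied sites Good (κ and κ/2), `ae_dense` with `κ/2` so DenseZ (κ/2) for some `N`, `exists_slow`. Let `Z` be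
a measurable null set containing the exceptional points (`toMeasurable`). `U N` = measurable set of `ω` with DenseZ (κ/2) N, Slow κ N z, Good κ N at 0 (`measurableSet_denseZ`, `measurableSet_slow`, `measurableSet_good`).
For `ω ∈ G \ Z` the origin is occupied (`occ_one`) and `ω ∈ U N` for some `N`; so `P (G ∩ U N \ Z) > 0` for some `N`. `dense_of_denseZ`: `N' ≥ N` with Dense κ N' on `U N` (`2 * (κ/2) = κ`);
Good, Slow are monotone in `N` too. `G' = (G ∩ U N) \ Z`. By `levy` with `K n = lev μ n` there is `ω ∈ G'` with `P {ω' | glue (lev μ n) ω ω' ∈ G'} → 1`. `early`: `(t₁, θ₁)` and infinitely many records `(r, x)`;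
`supp_cone`: `i`, `σ`. `core`: `P {glue ∈ G'} ≤ 1 - P S_{iσ} ≤ 1 - s`, `s > 0` the minimum of `P S_{iσ}` over the `2 d` pairs, for infinitely many `r`, contradiction.
-/

namespace Frog81

open MeasureTheory ProbabilityTheory Filter
open scoped ENNReal NNReal Topology

private theorem PairD_slow {d : ℕ} {μ : (Fin d → ℝ) → ℝ} {κ : ℝ} {N N' : ℕ} (h : N ≤ N')
    {ω : Env d} {z : Site d} (hs : Slow μ κ N ω z) : Slow μ κ N' ω z := by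
  have h1 : (N : ℝ) ≤ N' := by exact_mod_cast h
  exact ⟨hs.1.trans h1, fun y hy =>
    (ENNReal.ofReal_le_ofReal (by linarith)).trans (hs.2 y hy)⟩

private theorem PairD_dz {d : ℕ} {μ : (Fin d → ℝ) → ℝ} {κ : ℝ} {N N' : ℕ} (h : N ≤ N')
    {ω : Env d} (hs : DenseZ μ κ N ω) : DenseZ μ κ N' ω := by
  intro x hx
  have h1 : (N : ℝ) ≤ N' := by exact_mod_cast h
  obtain ⟨g, hg, hgx⟩ := hs x (h1.trans hx)
  exact ⟨g, good_mono h hg, hgx⟩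

private theorem PairD_mono {d : ℕ} {μ : (Fin d → ℝ) → ℝ} :
    Monotone (fun n : ℕ => lev (d := d) μ (n : ℝ)) := by
  intro n m hnm y hy
  have h1 : μ (rv y) < (n : ℝ) := hy
  have h2 : (n : ℝ) ≤ m := by exact_mod_cast hnm
  exact lt_of_lt_of_le h1 h2

private theorem PairD_fin {d : ℕ} [NeZero d] (ν : Measure ℕ) [IsProbabilityMeasure ν]
    (h : HasBoundedShape d ν) : ∀ᵐ ω ∂ envLaw d ν, ∀ a : Site d, 1 ≤ (ω a).1 →
    (∀ y, T ω a y ≠ ⊤) ∧ ∀ s : ℝ≥0, {y | T ω a y ≤ (s : ℝ≥0∞)}.Finite :=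
  ae_finite ν h

theorem pair_coex {d : ℕ} [NeZero d] (hd : 2 ≤ d) (ν : Measure ℕ) [IsProbabilityMeasure ν]
    (h : HasBoundedShape d ν) {β β' : ℝ} (hβ0 : 0 < β) (hββ : β < β') (hβ1 : β' < 1)
    (z : Site d) {G : Set (Env d)} (hGm : MeasurableSet G)
    (hG : ∀ ω ∈ G, (∃ t θ, IsTwoType β z ω t θ ∧ Activates ω t θ Kind.two) ∧
      ∃ t θ, IsTwoType β' z ω t θ ∧ Activates ω t θ Kind.one) : envLaw d ν G = 0 := by
  have hβ'0 : 0 < β' := hβ0.trans hββ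
  obtain ⟨μ, c, C, hμ, hgood⟩ := exists_gauge ν h
  obtain ⟨β₁, hβ₁⟩ : ∃ β₁ : ℝ, β₁ = (β + β') / 2 := ⟨_, rfl⟩
  have hb1 : β < β₁ := by rw [hβ₁]; linarith
  have hb2 : β₁ < β' := by rw [hβ₁]; linarith
  have hb0 : 0 < β₁ := hβ0.trans hb1
  have hb3 : β₁ < 1 := hb2.trans hβ1
  have hi1 : 1 < 1 / β' := by
    rw [lt_div_iff₀ hβ'0, one_mul]
    exact hβ1
  have hi2 : 1 / β' < 1 / β₁ := one_div_lt_one_div_of_lt hb0 hb2
  obtain ⟨ρ₂, hρ₂⟩ : ∃ ρ : ℝ, ρ = (3 * (1 / β') + 1 / β₁) / 4 := ⟨_, rfl⟩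
  obtain ⟨ρ₁, hρ₁⟩ : ∃ ρ : ℝ, ρ = (1 / β' + 1 / β₁) / 2 := ⟨_, rfl⟩
  obtain ⟨ρ₀, hρ₀⟩ : ∃ ρ : ℝ, ρ = (1 / β' + 3 * (1 / β₁)) / 4 := ⟨_, rfl⟩
  have r1 : 1 / β' < ρ₂ := by rw [hρ₂]; linarith
  have r2 : ρ₂ < ρ₁ := by rw [hρ₂, hρ₁]; linarith
  have r3 : ρ₁ < ρ₀ := by rw [hρ₁, hρ₀]; linarith
  have r4 : ρ₀ < 1 / β₁ := by rw [hρ₀]; linarith
  have r5 : 1 < ρ₁ := by linarith
  have r6 : β₁ * ρ₀ < 1 := by
    have h1 := (lt_div_iff₀ hb0).1 r4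
    linarith
  have r7 : β * ρ₀ < 1 := by
    have h1 : β * ρ₀ ≤ β₁ * ρ₀ := mul_le_mul_of_nonneg_right hb1.le (by linarith)
    linarith
  have r8 : β₁ * ρ₁ < 1 := by
    have h1 : β₁ * ρ₁ ≤ β₁ * ρ₀ := mul_le_mul_of_nonneg_left r3.le hb0.le
    linarith
  have r9 : 1 < ρ₂ * β' := (div_lt_iff₀ hβ'0).1 r1
  obtain ⟨δ, hδd⟩ : ∃ δ : ℝ, δ = (ρ₀ - ρ₁) / 2 := ⟨_, rfl⟩
  have hδ : 0 < δ := by rw [hδd]; linarith
  obtain ⟨a, κd, ha, hκd, hda, hS⟩ := success ν h.1 hμ hgood hδ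
  obtain ⟨κ₀, hκ₀, hwin⟩ := win hd hμ hβ0 (hb1.trans hb3) r5 r3 r7 ha hκd hda hδ hδd.le
  obtain ⟨κ, hκ⟩ : ∃ κ : ℝ, κ = min (κ₀ / 2) (min (1 / 2) (min ((ρ₂ * β' - 1) / 2)
    ((1 - β₁ * ρ₁) / 2))) := ⟨_, rfl⟩
  have hκ0 : 0 < κ := by
    rw [hκ]
    refine lt_min (by linarith) (lt_min (by norm_num) (lt_min (by linarith) (by linarith)))
  have hk1 : κ ≤ κ₀ / 2 := by rw [hκ]; exact min_le_left _ _
  have hk2 : κ ≤ 1 / 2 := by rw [hκ]; exact (min_le_right _ _).trans (min_le_left _ _)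
  have hk3 : κ ≤ (ρ₂ * β' - 1) / 2 := by
    rw [hκ]; exact (min_le_right _ _).trans ((min_le_right _ _).trans (min_le_left _ _))
  have hk4 : κ ≤ (1 - β₁ * ρ₁) / 2 := by
    rw [hκ]; exact (min_le_right _ _).trans ((min_le_right _ _).trans (min_le_right _ _))
  have hκb : κ < 1 := by linarith
  have hκc : (1 + κ) / β' ≤ ρ₂ := by
    rw [div_le_iff₀ hβ'0]
    linarith
  have hκe : β₁ * ρ₁ < 1 - κ := by linarith
  have hae : ∀ᵐ ω ∂ envLaw d ν, Regular ω ∧ (∀ a : Site d, 1 ≤ (ω a).1 →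
      (∀ y, T ω a y ≠ ⊤) ∧ ∀ s : ℝ≥0, {y | T ω a y ≤ (s : ℝ≥0∞)}.Finite) ∧
      (∀ x : Site d, 1 ≤ (ω x).1 → ∃ N : ℕ, Good μ κ N ω x) ∧ ∃ N : ℕ, DenseZ μ (κ / 2) N ω := by
    have hg2 := hgood (κ / 2) (by linarith) (by linarith)
    filter_upwards [ae_regular ν, PairD_fin ν h, hgood κ hκ0 hκb,
      ae_dense ν (κ := κ / 2) (by linarith) (by linarith) h.1 hg2] with ω h1 h2 h3 h4
    obtain ⟨N, hN⟩ := h4
    exact ⟨h1, h2, h3, N, denseZ_of_dense hN⟩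
  obtain ⟨Z, hZsub, hZm, hZ0⟩ := exists_measurable_superset_of_null (ae_iff.1 hae)
  have hQ : ∀ ω, ω ∉ Z → Regular ω ∧ (∀ a : Site d, 1 ≤ (ω a).1 →
      (∀ y, T ω a y ≠ ⊤) ∧ ∀ s : ℝ≥0, {y | T ω a y ≤ (s : ℝ≥0∞)}.Finite) ∧
      (∀ x : Site d, 1 ≤ (ω x).1 → ∃ N : ℕ, Good μ κ N ω x) ∧
      ∃ N : ℕ, DenseZ μ (κ / 2) N ω := by
    intro ω hω
    by_contra hcon
    exact hω (hZsub hcon)
  by_contra hP
  obtain ⟨U, hU⟩ : ∃ U : ℕ → Set (Env d), ∀ N, U N = {ω : Env d | DenseZ μ (κ / 2) N ω} ∩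
      {ω : Env d | Slow μ κ N ω z} ∩ {ω : Env d | Good μ κ N ω 0} := ⟨_, fun _ => rfl⟩
  have hUm : ∀ N, MeasurableSet (U N) := fun N => by
    rw [hU]
    exact ((measurableSet_denseZ μ _ N).inter (measurableSet_slow μ κ N z)).inter
      (measurableSet_good μ κ N 0)
  have hcov : G \ Z ⊆ ⋃ N, (G ∩ U N) \ Z := by
    rintro ω ⟨hωG, hωZ⟩
    obtain ⟨q1, q2, q3, N₁, q4⟩ := hQ ω hωZ
    obtain ⟨-, t', θ', h', hp'⟩ := hG ω hωG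
    have h0 : 1 ≤ (ω 0).1 := occ_one q1 hβ'0 h' hp'
    obtain ⟨N₂, hN₂⟩ := q3 0 h0
    obtain ⟨N₀, hN₀⟩ := exists_slow hμ hκ0 hκb (q3 z)
    refine Set.mem_iUnion.2 ⟨N₀ + N₁ + N₂, ⟨hωG, ?_⟩, hωZ⟩
    rw [hU]
    exact ⟨⟨PairD_dz (by omega) q4, PairD_slow (by omega) hN₀⟩, good_mono (by omega) hN₂⟩
  obtain ⟨N, hN⟩ : ∃ N, envLaw d ν ((G ∩ U N) \ Z) ≠ 0 := by
    by_contra hcon
    push Not at hcon
    apply hP
    have h1 : envLaw d ν (G \ Z) = 0 := measure_mono_null hcov (measure_iUnion_null hcon)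
    refine measure_mono_null (t := (G \ Z) ∪ Z) (fun ω hω => ?_) (measure_union_null h1 hZ0)
    by_cases hZω : ω ∈ Z
    · exact Or.inr hZω
    · exact Or.inl ⟨hω, hZω⟩
  obtain ⟨N', hNN, hdz⟩ := dense_of_denseZ hμ (show 0 < κ / 2 by linarith) N
  have hGm' : MeasurableSet ((G ∩ U N) \ Z) := (hGm.inter (hUm N)).diff hZm
  have hG' : ∀ η ∈ (G ∩ U N) \ Z, Regular η ∧ Slow μ κ N' η z ∧ Dense μ κ N' η ∧
      Good μ κ N' η 0 ∧ ∃ t θ, IsTwoType β z η t θ ∧ Activates η t θ Kind.two := by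
    rintro η ⟨⟨hηG, hηU⟩, hηZ⟩
    rw [hU] at hηU
    obtain ⟨⟨u1, u2⟩, u3⟩ := hηU
    have u4 := hdz η u1
    rw [mul_div_cancel₀ κ (two_ne_zero)] at u4
    exact ⟨(hQ η hηZ).1, PairD_slow hNN u2, u4, good_mono hNN u3, (hG η hηG).1⟩
  have hlevy := levy ν hGm' (fun n : ℕ => lev μ (n : ℝ))
    PairD_mono
    (fun y => exists_nat_gt (μ (rv y)))
  obtain ⟨ω, hω, hlim⟩ : ∃ ω, ω ∈ (G ∩ U N) \ Z ∧ Tendsto (fun n : ℕ =>
      envLaw d ν {ω' | glue (lev μ (n : ℝ)) ω ω' ∈ (G ∩ U N) \ Z}) atTop (𝓝 1) := by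
    by_contra hcon
    push Not at hcon
    refine hN (measure_mono_null (fun ω hω => ?_) (ae_iff.1 hlevy))
    intro hω'
    exact hcon ω hω (hω' hω)
  obtain ⟨g1, g2, g3, g4, t, θ, g5, g6⟩ := hG' ω hω
  obtain ⟨-, t', θ', g7, g8⟩ := hG ω hω.1.1
  obtain ⟨t₁, θ₁, h₁, hfreq⟩ := early hμ hβ0 hb1 hb2 hβ1 hκ0 hκc r2 hκe g1
    (hQ ω hω.2).2.1 (fun _ => g4) g2 g5 g7 g6 g8
  obtain ⟨R, hR⟩ := hwin κ hκ0 (by linarith) N'
  have hS' : ∀ p : Fin d × Bool, ∃ (R : ℝ) (S : Set (Env d)), MeasurableSet S ∧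
      envLaw d ν S ≠ 0 ∧ ∀ ω ∈ S, 1 ≤ (ω 0).1 ∧ ∀ r : ℕ, R ≤ r → ∀ y : Site d,
        ‖rv y - (a * r) • rv (ax p.1 (cond p.2 1 (-1)) 1)‖ ≤ κd * r →
          T (cut (cone p.1 (cond p.2 1 (-1))) ω) 0 y ≤ ENNReal.ofReal (δ * r) := by
    rintro ⟨i, b⟩
    cases b
    · exact hS i (-1) (Or.inr rfl)
    · exact hS i 1 (Or.inl rfl)
  choose RS S hSm hSne hSω using hS'
  have hne : (Finset.univ : Finset (Fin d × Bool)).Nonempty := ⟨(0, true), Finset.mem_univ _⟩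
  obtain ⟨p₀, -, hp₀⟩ := Finset.exists_min_image Finset.univ (fun p => envLaw d ν (S p)) hne
  obtain ⟨p₁, -, hp₁⟩ := Finset.exists_max_image Finset.univ RS hne
  have hlt : (1 : ℝ≥0∞) - envLaw d ν (S p₀) < 1 :=
    ENNReal.sub_lt_self ENNReal.one_ne_top one_ne_zero (hSne p₀)
  have hev := (hlim.eventually_const_lt hlt).and
    ((tendsto_natCast_atTop_atTop.eventually (eventually_ge_atTop R)).and
      (tendsto_natCast_atTop_atTop.eventually (eventually_ge_atTop (RS p₁))))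
  obtain ⟨r, ⟨x, x1, x2, x3, x4⟩, hr1, hr2, hr3⟩ := (hfreq.and_eventually hev).exists
  obtain ⟨i, σ, hσ, hsupp⟩ := supp_cone hμ x
  have hfinal : ∀ p : Fin d × Bool, p.1 = i → cond p.2 1 (-1) = σ →
      envLaw d ν {ω' | glue (lev μ (r : ℝ)) ω ω' ∈ (G ∩ U N) \ Z} ≤ 1 - envLaw d ν (S p) := by
    rintro ⟨i', b⟩ hi hb
    subst hi
    subst hb
    exact core ν hβ0 hb1 hb3 hG' (fun η t θ => hR η z t θ) hσ (hSm _) (hSω _) g1 h₁ hr2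
      ((hp₁ _ (Finset.mem_univ _)).trans hr3) x1 x2 x3 x4 hsupp
  have hle : ∀ p : Fin d × Bool, (1 : ℝ≥0∞) - envLaw d ν (S p) ≤ 1 - envLaw d ν (S p₀) :=
    fun p => tsub_le_tsub_left (hp₀ p (Finset.mem_univ _)) 1
  rcases hσ with rfl | rfl
  · exact absurd hr1 (not_lt.2 ((hfinal (i, true) rfl rfl).trans (hle _)))
  · exact absurd hr1 (not_lt.2 ((hfinal (i, false) rfl rfl).trans (hle _)))

end Frog81
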